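import Mathlib
import Pool.Agent.R972.PC.Defs

set_option autoImplicit false

open MeasureTheory Set Filter Topology
open scoped NNReal ENNReal

namespace Pool.Agent.U924.PC
open Pool.Agent.R972.PC (leb)

instance : IsProbabilityMeasure leb := ⟨by simp [leb]⟩

lemma leb_eq : leb = volume.restrict (Ico (0:ℝ) 1) := by
  rw [leb]; exact (Measure.restrict_congr_set Ico_ae_eq_Icc).symm

lemma leb_apply (s : Set ℝ) : leb s = volume (s ∩ Ico (0:ℝ) 1) := by
  rw [leb_eq, Measure.restrict_apply' measurableSet_Ico]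

/-- the index `i` with `F i ≤ u * F M < F (i+1)` -/
noncomputable def idx (M : ℕ) (F : ℕ → ℝ) (u : ℝ) : ℕ :=
  ∑ i ∈ Finset.range (M-1), if F (i+1) ≤ u * F M then 1 else 0

lemma idx_lt {M : ℕ} (hM : 1 ≤ M) (F : ℕ → ℝ) (u : ℝ) : idx M F u < M := by
  have : idx M F u ≤ M - 1 := by
    unfold idx
    calc _ ≤ ∑ i ∈ Finset.range (M-1), 1 := Finset.sum_le_sum (fun i _ => by split_ifs <;> simp)
      _ = M - 1 := by simp
  omega

lemma idx_eq_of {M : ℕ} {F : ℕ → ℝ} (hF : Monotone F) {u : ℝ} {i : ℕ} (hi : i < M)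
    (h1 : F i ≤ u * F M) (h2 : u * F M < F (i+1)) : idx M F u = i := by
  unfold idx
  rw [← Finset.card_filter]
  have : (Finset.range (M-1)).filter (fun j => F (j+1) ≤ u * F M) = Finset.range i := by
    ext j
    simp only [Finset.mem_filter, Finset.mem_range]
    constructor
    · rintro ⟨_, hj⟩
      by_contra hc
      push Not at hc
      exact absurd (lt_of_lt_of_le h2 (hF (by omega : i + 1 ≤ j + 1))) (not_lt.2 hj)
    · intro hj
      exact ⟨by omega, (hF (by omega : j + 1 ≤ i)).trans h1⟩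
  rw [this, Finset.card_range]

lemma idx_spec {M : ℕ} {F : ℕ → ℝ} (hF : Monotone F) (h0 : F 0 = 0) (hM : 0 < F M)
    {u : ℝ} (hu : u ∈ Ico (0:ℝ) 1) :
    F (idx M F u) ≤ u * F M ∧ u * F M < F (idx M F u + 1) := by
  classical
  have hM1 : 1 ≤ M := by
    rcases Nat.eq_zero_or_pos M with h | h
    · subst h; rw [h0] at hM; exact absurd hM (lt_irrefl _)
    · exact h
  have hex : ∃ n, u * F M < F (n+1) := by
    refine ⟨M - 1, ?_⟩
    rw [Nat.sub_add_cancel hM1]
    nlinarith [hu.2]
  have hs := Nat.find_spec hex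
  have hlt : Nat.find hex < M := by
    have : Nat.find hex ≤ M - 1 := Nat.find_le (by
      rw [Nat.sub_add_cancel hM1]; nlinarith [hu.2])
    omega
  have h1 : F (Nat.find hex) ≤ u * F M := by
    rcases Nat.eq_zero_or_pos (Nat.find hex) with h | h
    · rw [h, h0]; exact mul_nonneg hu.1 hM.le
    · have := Nat.find_min hex (m := Nat.find hex - 1) (by omega)
      rw [Nat.sub_add_cancel h] at this
      exact not_lt.1 this
  rw [idx_eq_of hF hlt h1 hs]
  exact ⟨h1, hs⟩

lemma measurable_idx (M : ℕ) (F : ℕ → ℝ) : Measurable (idx M F) := by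
  unfold idx
  refine Finset.measurable_sum _ (fun i _ => Measurable.ite ?_ measurable_const measurable_const)
  exact measurableSet_le measurable_const (by fun_prop)

lemma leb_idx {M : ℕ} {F : ℕ → ℝ} (hF : Monotone F) (h0 : F 0 = 0) (hM : 0 < F M)
    {i : ℕ} (hi : i < M) :
    leb {u | idx M F u = i} = ENNReal.ofReal ((F (i+1) - F i) / F M) := by
  rw [leb_apply]
  have : {u | idx M F u = i} ∩ Ico (0:ℝ) 1 = Ico (F i / F M) (F (i+1) / F M) := by
    ext u
    simp only [mem_inter_iff, mem_ofPred_eq]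
    constructor
    · rintro ⟨h, hu⟩
      obtain ⟨h1, h2⟩ := idx_spec hF h0 hM hu
      rw [h] at h1 h2
      exact ⟨(div_le_iff₀ hM).2 h1, (lt_div_iff₀ hM).2 h2⟩
    · rintro ⟨h1, h2⟩
      have h1' := (div_le_iff₀ hM).1 h1
      have h2' := (lt_div_iff₀ hM).1 h2
      refine ⟨idx_eq_of hF hi h1' h2', ?_, ?_⟩
      · have : 0 ≤ F i := by rw [← h0]; exact hF (Nat.zero_le _)
        exact le_trans (div_nonneg this hM.le) h1
      · have : F (i+1) ≤ F M := hF hi
        exact lt_of_lt_of_le h2 ((div_le_one hM).2 this)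
  rw [this, Real.volume_Ico, sub_div]

lemma lintegral_idx {M : ℕ} (hM1 : 1 ≤ M) (F : ℕ → ℝ) (ψ : ℕ → ℝ≥0∞) :
    ∫⁻ u, ψ (idx M F u) ∂leb = ∑ i ∈ Finset.range M, leb {u | idx M F u = i} * ψ i := by
  have hms : ∀ i, MeasurableSet {u | idx M F u = i} := fun i =>
    (measurable_idx M F) (measurableSet_singleton i)
  have : ∀ u, ψ (idx M F u)
      = ∑ i ∈ Finset.range M, ({u | idx M F u = i}).indicator (fun _ => ψ i) u := by
    intro u
    rw [Finset.sum_eq_single (idx M F u)]
    · simp
    · intro b _ hb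
      exact indicator_of_notMem (fun h => hb h.symm) _
    · intro h
      exact absurd (Finset.mem_range.2 (idx_lt hM1 F u)) h
  simp_rw [this]
  rw [lintegral_finsetSum _ (fun i _ => measurable_const.indicator (hms i))]
  refine Finset.sum_congr rfl (fun i _ => ?_)
  rw [lintegral_indicator (hms i), setLIntegral_const, mul_comm]

/-- resampling one coordinate of a product measure -/
lemma lintegral_update {ι : Type*} [DecidableEq ι] (k : ι) (G : (ι → ℝ) → ℝ≥0∞)
    (hG : Measurable G) :
    ∫⁻ ω, G ω ∂(Measure.infinitePi (fun _ : ι => leb))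
      = ∫⁻ ω, ∫⁻ u, G (Function.update ω k u) ∂leb ∂(Measure.infinitePi (fun _ : ι => leb)) := by
  set μ := Measure.infinitePi (fun _ : ι => leb) with hμ
  have hm : Measurable (fun p : (ι → ℝ) × ℝ => Function.update p.1 k p.2) := by
    refine measurable_pi_lambda _ (fun i => ?_)
    by_cases h : i = k
    · subst h; simpa using measurable_snd
    · simp only [Function.update_of_ne h]
      exact (measurable_pi_apply i).comp measurable_fst
  have hmap : (μ.prod leb).map (fun p : (ι → ℝ) × ℝ => Function.update p.1 k p.2) = μ := by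
    refine Measure.eq_infinitePi _ (fun s t ht => ?_)
    rw [Measure.map_apply hm (MeasurableSet.pi s.countable_toSet (fun i _ => ht i))]
    have hpre : (fun p : (ι → ℝ) × ℝ => Function.update p.1 k p.2) ⁻¹' (Set.pi s t)
        = (Set.pi (s.erase k : Finset ι) t) ×ˢ (if k ∈ s then t k else univ) := by
      ext p
      simp only [mem_preimage, Set.mem_pi, mem_prod, Finset.coe_erase, Finset.mem_coe,
        Set.mem_sdiff, mem_singleton_iff]
      constructor
      · intro h
        refine ⟨fun i hi => ?_, ?_⟩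
        · have := h i hi.1
          rwa [Function.update_of_ne hi.2] at this
        · split_ifs with hk
          · simpa using h k hk
          · trivial
      · rintro ⟨h1, h2⟩ i hi
        by_cases hik : i = k
        · subst hik
          simpa [hi] using h2
        · rw [Function.update_of_ne hik]
          exact h1 i ⟨hi, hik⟩
    rw [hpre, Measure.prod_prod, hμ, Measure.infinitePi_pi _ (fun i _ => ht i)]
    split_ifs with hk
    · rw [Finset.prod_erase_mul _ _ hk]
    · rw [Finset.erase_eq_of_notMem hk]; simp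
  conv_lhs => rw [← hmap]
  rw [lintegral_map hG hm]
  exact lintegral_prod _ (hG.comp hm).aemeasurable

/-- two-sample discrepancy of the cumulative functions -/
noncomputable def disc (M : ℕ) (F G : ℕ → ℝ) : ℝ :=
  ∑ i ∈ Finset.range (M-1), (|F (i+1) - G (i+1)| + |F M - G M|)

lemma min_mul_abs {a b m m' : ℝ} (hm : 0 < m) (hm' : 0 < m') (ha : 0 ≤ a) (ham : a ≤ m)
    (hb : 0 ≤ b) (hbm : b ≤ m') : min m m' * |a / m - b / m'| ≤ |a - b| + |m - m'| := by
  rcases le_total m m' with h | h
  · rw [min_eq_left h]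
    have : m * |a / m - b / m'| = |(a - b) + b * ((m' - m) / m')| := by
      rw [← abs_of_pos hm, ← abs_mul, abs_of_pos hm]
      congr 1; field_simp; try ring
    rw [this]
    refine (abs_add_le _ _).trans (add_le_add le_rfl ?_)
    rw [abs_mul, abs_of_nonneg hb, abs_of_nonneg (div_nonneg (sub_nonneg.2 h) hm'.le),
      abs_sub_comm, abs_of_nonneg (sub_nonneg.2 h)]
    calc b * ((m' - m) / m') ≤ m' * ((m' - m) / m') := by
          gcongr
      _ = m' - m := by field_simp
  · rw [min_eq_right h]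
    have : m' * |a / m - b / m'| = |(a - b) - a * ((m - m') / m)| := by
      rw [← abs_of_pos hm', ← abs_mul, abs_of_pos hm']
      congr 1; field_simp; try ring
    rw [this]
    refine (abs_sub _ _).trans (add_le_add le_rfl ?_)
    rw [abs_mul, abs_of_nonneg ha, abs_of_nonneg (div_nonneg (sub_nonneg.2 h) hm.le),
      abs_of_nonneg (sub_nonneg.2 h)]
    calc a * ((m - m') / m) ≤ m * ((m - m') / m) := by
          gcongr
      _ = m - m' := by field_simp

lemma leb_xor_le {a b m m' : ℝ} (hm : 0 < m) (hm' : 0 < m') :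
    ∫⁻ u, ENNReal.ofReal |((if a ≤ u * m then (1:ℝ) else 0) - (if b ≤ u * m' then 1 else 0))| ∂leb
      ≤ ENNReal.ofReal |a / m - b / m'| := by
  have hle : ∀ u : ℝ, ENNReal.ofReal |((if a ≤ u * m then (1:ℝ) else 0)
      - (if b ≤ u * m' then 1 else 0))|
      ≤ (Ico (min (a/m) (b/m')) (max (a/m) (b/m'))).indicator (fun _ => (1:ℝ≥0∞)) u := by
    intro u
    have e1 : a ≤ u * m ↔ a / m ≤ u := (div_le_iff₀ hm).symm
    have e2 : b ≤ u * m' ↔ b / m' ≤ u := (div_le_iff₀ hm').symm
    simp only [e1, e2]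
    by_cases h1 : a / m ≤ u <;> by_cases h2 : b / m' ≤ u
    · simp [h1, h2]
    · push Not at h2
      rw [indicator_of_mem (show u ∈ Ico _ _ from ⟨min_le_of_left_le h1, lt_max_of_lt_right h2⟩)]
      simp [h1, not_le.2 h2]
    · push Not at h1
      rw [indicator_of_mem (show u ∈ Ico _ _ from ⟨min_le_of_right_le h2, lt_max_of_lt_left h1⟩)]
      simp [h2, not_le.2 h1]
    · simp [h1, h2]
  calc _ ≤ ∫⁻ u, (Ico (min (a/m) (b/m')) (max (a/m) (b/m'))).indicator (fun _ => (1:ℝ≥0∞)) u
        ∂leb := lintegral_mono hle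
    _ = leb (Ico (min (a/m) (b/m')) (max (a/m) (b/m'))) := by
        rw [lintegral_indicator measurableSet_Ico]; simp
    _ ≤ volume (Ico (min (a/m) (b/m')) (max (a/m) (b/m'))) := by
        rw [leb_apply]; exact measure_mono inter_subset_left
    _ = ENNReal.ofReal |a / m - b / m'| := by
        rw [Real.volume_Ico, max_sub_min_eq_abs, abs_sub_comm]

lemma pair_diag {M : ℕ} {F G : ℕ → ℝ} (hF : Monotone F) (hG : Monotone G) (hF0 : F 0 = 0)
    (hG0 : G 0 = 0) (hFM : 0 < F M) (hGM : 0 < G M) {i : ℕ} (hi : i < M) :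
    ENNReal.ofReal (min (F M) (G M)) * leb {u | idx M F u = i ∧ idx M G u = i}
      ≤ ENNReal.ofReal (min (F (i+1) - F i) (G (i+1) - G i)) := by
  have h1 : leb {u | idx M F u = i ∧ idx M G u = i} ≤ ENNReal.ofReal ((F (i+1) - F i) / F M) := by
    rw [← leb_idx hF hF0 hFM hi]; exact measure_mono (fun u hu => hu.1)
  have h2 : leb {u | idx M F u = i ∧ idx M G u = i} ≤ ENNReal.ofReal ((G (i+1) - G i) / G M) := by
    rw [← leb_idx hG hG0 hGM hi]; exact measure_mono (fun u hu => hu.2)
  have hp1 : 0 ≤ F (i+1) - F i := sub_nonneg.2 (hF (Nat.le_succ _))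
  have hp2 : 0 ≤ G (i+1) - G i := sub_nonneg.2 (hG (Nat.le_succ _))
  rw [ENNReal.ofReal_min (F (i+1) - F i)]
  refine le_min ?_ ?_
  · calc _ ≤ ENNReal.ofReal (F M) * ENNReal.ofReal ((F (i+1) - F i) / F M) := by
          gcongr; exact min_le_left _ _
      _ = ENNReal.ofReal (F (i+1) - F i) := by
          rw [← ENNReal.ofReal_mul hFM.le]; congr 1; field_simp
  · calc _ ≤ ENNReal.ofReal (G M) * ENNReal.ofReal ((G (i+1) - G i) / G M) := by
          gcongr; exact min_le_right _ _
      _ = ENNReal.ofReal (G (i+1) - G i) := by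
          rw [← ENNReal.ofReal_mul hGM.le]; congr 1; field_simp

lemma pair_disc {M : ℕ} {F G : ℕ → ℝ} (hF : Monotone F) (hG : Monotone G) (hF0 : F 0 = 0)
    (hG0 : G 0 = 0) (hFM : 0 < F M) (hGM : 0 < G M) :
    ENNReal.ofReal (min (F M) (G M))
        * ∫⁻ u, ENNReal.ofReal |(idx M F u : ℝ) - idx M G u| ∂leb
      ≤ ENNReal.ofReal (disc M F G) := by
  have h1 : ∀ u, ENNReal.ofReal |(idx M F u : ℝ) - idx M G u|
      ≤ ∑ i ∈ Finset.range (M-1), ENNReal.ofReal |((if F (i+1) ≤ u * F M then (1:ℝ) else 0)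
        - (if G (i+1) ≤ u * G M then 1 else 0))| := by
    intro u
    rw [← ENNReal.ofReal_sum_of_nonneg (fun i _ => abs_nonneg _)]
    apply ENNReal.ofReal_le_ofReal
    unfold idx
    push_cast
    rw [← Finset.sum_sub_distrib]
    exact Finset.abs_sum_le_sum_abs _ _
  have hmeas : ∀ i, Measurable (fun u : ℝ => ENNReal.ofReal |((if F (i+1) ≤ u * F M then (1:ℝ) else 0)
        - (if G (i+1) ≤ u * G M then 1 else 0))|) := by
    intro i
    refine ENNReal.measurable_ofReal.comp (Measurable.abs ?_)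
    refine Measurable.sub ?_ ?_
    · exact Measurable.ite (measurableSet_le measurable_const (by fun_prop)) measurable_const
        measurable_const
    · exact Measurable.ite (measurableSet_le measurable_const (by fun_prop)) measurable_const
        measurable_const
  calc _ ≤ ENNReal.ofReal (min (F M) (G M)) * ∑ i ∈ Finset.range (M-1),
        ENNReal.ofReal |F (i+1) / F M - G (i+1) / G M| := by
        gcongr
        refine (lintegral_mono h1).trans ?_
        rw [lintegral_finsetSum _ (fun i _ => hmeas i)]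
        exact Finset.sum_le_sum (fun i _ => leb_xor_le hFM hGM)
    _ = ∑ i ∈ Finset.range (M-1), ENNReal.ofReal
        (min (F M) (G M) * |F (i+1) / F M - G (i+1) / G M|) := by
        rw [Finset.mul_sum]
        refine Finset.sum_congr rfl (fun i _ => ?_)
        rw [ENNReal.ofReal_mul (le_min hFM.le hGM.le)]
    _ ≤ ∑ i ∈ Finset.range (M-1), ENNReal.ofReal (|F (i+1) - G (i+1)| + |F M - G M|) := by
        refine Finset.sum_le_sum (fun i hi => ENNReal.ofReal_le_ofReal ?_)
        have hi' : i + 1 ≤ M := by have := Finset.mem_range.1 hi; omega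
        refine min_mul_abs hFM hGM ?_ (hF hi') ?_ (hG hi')
        · rw [← hF0]; exact hF (Nat.zero_le _)
        · rw [← hG0]; exact hG (Nat.zero_le _)
    _ = ENNReal.ofReal (disc M F G) := by
        rw [disc, ENNReal.ofReal_sum_of_nonneg (fun i _ => by positivity)]

end Pool.Agent.U924.PC
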