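import Mathlib
import Pool.Agent.R972.PC.Defs
import Pool.Agent.U924.Pc.Idx

set_option autoImplicit false

open MeasureTheory Set Filter Topology
open scoped NNReal ENNReal

namespace Pool.Agent.U924.PC
open Pool.Agent.R972.PC (leb)

/-- cumulative masses of the children of a cell -/
noncomputable def Fc (P : Measure ℝ) (L z : ℝ) (i : ℕ) : ℝ := P.real (Ico z (z + i*L))

/-- descent from the cell `[z, z+M^k)`, `j` levels down, common uniforms `ω` -/
noncomputable def pos (M : ℕ) (P : Measure ℝ) : ℕ → ℤ → ℝ → (ℤ → ℝ) → ℝ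
  | 0, _, z, _ => z
  | j+1, k, z, ω =>
      pos M P j (k-1) (z + (M:ℝ)^(k-1) * (idx M (Fc P ((M:ℝ)^(k-1)) z) (ω (k-1)) : ℕ)) ω

lemma Fc_zero (P : Measure ℝ) (L z : ℝ) : Fc P L z 0 = 0 := by simp [Fc]

lemma Fc_mono (P : Measure ℝ) [IsFiniteMeasure P] {L : ℝ} (hL : 0 ≤ L) (z : ℝ) :
    Monotone (Fc P L z) := by
  intro i j hij
  refine measureReal_mono (Ico_subset_Ico_right ?_)
  have : (i:ℝ) ≤ j := by exact_mod_cast hij
  nlinarith [mul_le_mul_of_nonneg_right this hL]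

lemma Fc_succ_sub (P : Measure ℝ) [IsFiniteMeasure P] {L : ℝ} (hL : 0 ≤ L) (z : ℝ) (i : ℕ) :
    Fc P L z (i+1) - Fc P L z i = P.real (Ico (z + i*L) (z + i*L + L)) := by
  have h1 : Ico z (z + ((i+1:ℕ):ℝ)*L) = Ico z (z + i*L) ∪ Ico (z+i*L) (z + i*L+L) := by
    rw [Ico_union_Ico_eq_Ico]
    · congr 1; push_cast; ring
    · have : 0 ≤ (i:ℝ)*L := by positivity
      linarith
    · linarith
  unfold Fc
  rw [h1, measureReal_union (Ico_disjoint_Ico_same) measurableSet_Ico]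
  ring

lemma zpow_step {M : ℕ} (hM : 1 ≤ M) (k : ℤ) : (M:ℝ) * (M:ℝ)^(k-1) = (M:ℝ)^k := by
  have : (M:ℝ) ≠ 0 := by positivity
  rw [← zpow_one_add₀ this]; congr 1; ring

lemma Fc_top (P : Measure ℝ) {M : ℕ} (hM : 1 ≤ M) (k : ℤ) (z : ℝ) :
    Fc P ((M:ℝ)^(k-1)) z M = P.real (Ico z (z + (M:ℝ)^k)) := by
  rw [Fc, zpow_step hM]

lemma zpow_posM {M : ℕ} (hM : 1 ≤ M) (k : ℤ) : 0 < (M:ℝ)^k := by positivity

lemma measurable_mass (P : Measure ℝ) [IsFiniteMeasure P] {c : ℝ} (hc : 0 ≤ c) :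
    Measurable (fun z : ℝ => P.real (Ico z (z + c))) := by
  have h : ∀ z, P.real (Ico z (z + c)) = P.real (Iio (z+c)) - P.real (Iio z) := by
    intro z
    have : Iio (z+c) = Iio z ∪ Ico z (z+c) := by
      rw [Iio_union_Ico_eq_Iio]; linarith
    have hd : Disjoint (Iio z) (Ico z (z+c)) :=
      Set.disjoint_left.2 (fun a ha hb => absurd hb.1 (not_le.2 ha))
    rw [this, measureReal_union hd measurableSet_Ico]
    ring
  simp_rw [h]
  have hmono : Monotone (fun z : ℝ => P.real (Iio z)) := fun a b hab =>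
    measureReal_mono (Iio_subset_Iio hab)
  exact (hmono.measurable.comp (measurable_id.add_const c)).sub hmono.measurable

lemma measurable_child (P : Measure ℝ) [IsFiniteMeasure P] (M : ℕ) {L : ℝ} (hL : 0 ≤ L) :
    Measurable (fun p : ℝ × ℝ => idx M (Fc P L p.1) p.2) := by
  unfold idx
  have hF : ∀ i : ℕ, Measurable (fun z : ℝ => Fc P L z i) := fun i =>
    measurable_mass P (by positivity)
  refine Finset.measurable_sum _ (fun i _ => Measurable.ite ?_ measurable_const measurable_const)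
  exact measurableSet_le ((hF _).comp measurable_fst)
    (measurable_snd.mul ((hF _).comp measurable_fst))

section
attribute [local irreducible] idx Fc

lemma measurable_pos {M : ℕ} (hM : 1 ≤ M) (P : Measure ℝ) [IsFiniteMeasure P] (j : ℕ) :
    ∀ k : ℤ, Measurable (fun p : ℝ × (ℤ → ℝ) => pos M P j k p.1 p.2) := by
  induction j with
  | zero => intro k; exact measurable_fst
  | succ j ih =>
    intro k
    have h0 : Measurable (fun p : ℝ × (ℤ → ℝ) => (p.1, p.2 (k-1))) :=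
      measurable_fst.prodMk ((measurable_pi_apply (k-1)).comp measurable_snd)
    have hL0 : 0 ≤ (M:ℝ)^(k-1) := (zpow_posM hM (k-1)).le
    have ihk := ih (k-1)
    simp only [pos]
    generalize (M:ℝ)^(k-1) = L at *
    have hc : Measurable (fun p : ℝ × ℝ => idx M (Fc P L p.1) p.2) := measurable_child P M hL0
    have h2 : Measurable (fun p : ℝ × (ℤ → ℝ) => idx M (Fc P L p.1) (p.2 (k-1))) :=
      Measurable.comp (g := fun p : ℝ × ℝ => idx M (Fc P L p.1) p.2) hc h0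
    have h3 : Measurable (fun n : ℕ => (n:ℝ)) := measurable_from_top
    have h4 : Measurable (fun p : ℝ × (ℤ → ℝ) => ((idx M (Fc P L p.1) (p.2 (k-1)) : ℕ) : ℝ)) :=
      h3.comp h2
    have h1 : Measurable (fun p : ℝ × (ℤ → ℝ) =>
        ((p.1 + L * ((idx M (Fc P L p.1) (p.2 (k-1)) : ℕ) : ℝ)), p.2)) :=
      (measurable_fst.add (h4.const_mul _)).prodMk measurable_snd
    exact ihk.comp h1

end

lemma pos_update {M : ℕ} (P : Measure ℝ) (j : ℕ) :
    ∀ (k : ℤ) (z : ℝ) (ω : ℤ → ℝ) (m : ℤ) (u : ℝ), k ≤ m →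
      pos M P j k z (Function.update ω m u) = pos M P j k z ω := by
  induction j with
  | zero => intros; rfl
  | succ j ih =>
    intro k z ω m u hkm
    simp only [pos]
    rw [Function.update_of_ne (by omega), ih _ _ _ _ _ (by omega)]

lemma pos_mem {M : ℕ} (hM : 1 ≤ M) (P : Measure ℝ) (j : ℕ) :
    ∀ (k : ℤ) (z : ℝ) (ω : ℤ → ℝ), pos M P j k z ω ∈ Ico z (z + (M:ℝ)^k) := by
  induction j with
  | zero => intro k z ω; exact ⟨le_rfl, by have := zpow_posM hM k; simp only [pos]; linarith⟩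
  | succ j ih =>
    intro k z ω
    simp only [pos]
    set i := idx M (Fc P ((M:ℝ)^(k-1)) z) (ω (k-1)) with hi
    have hiM : i < M := idx_lt hM _ _
    obtain ⟨h1, h2⟩ := ih (k-1) (z + (M:ℝ)^(k-1) * (i:ℕ)) ω
    have hL := zpow_posM hM (k-1)
    have hs := zpow_step hM k
    have hi' : (i:ℝ) + 1 ≤ M := by exact_mod_cast hiM
    have hi0 : (0:ℝ) ≤ i := Nat.cast_nonneg _
    constructor
    · nlinarith
    · nlinarith

lemma pos_step {M : ℕ} (hM : 1 ≤ M) (P : Measure ℝ) (j : ℕ) :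
    ∀ (k : ℤ) (z : ℝ) (ω : ℤ → ℝ),
      |pos M P (j+1) k z ω - pos M P j k z ω| ≤ (M:ℝ)^(k-j) := by
  induction j with
  | zero =>
    intro k z ω
    have h := pos_mem hM P 1 k z ω
    have h0 : pos M P 0 k z ω = z := rfl
    rw [zero_add, h0, abs_of_nonneg (by linarith [h.1])]
    simp only [Nat.cast_zero, sub_zero]
    linarith [h.2]
  | succ j ih =>
    intro k z ω
    have := ih (k-1) (z + (M:ℝ)^(k-1) * (idx M (Fc P ((M:ℝ)^(k-1)) z) (ω (k-1)) : ℕ)) ω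
    have e : (k - 1 - (j:ℤ)) = k - ((j+1:ℕ):ℤ) := by push_cast; ring
    rw [e] at this
    exact this

lemma mass_idx (P : Measure ℝ) [IsFiniteMeasure P] {M : ℕ} (hM : 1 ≤ M) (k : ℤ) (z : ℝ)
    {i : ℕ} (hi : i < M) :
    P (Ico z (z + (M:ℝ)^k)) * leb {u | idx M (Fc P ((M:ℝ)^(k-1)) z) u = i}
      = P (Ico (z + (M:ℝ)^(k-1) * i) (z + (M:ℝ)^(k-1)*i + (M:ℝ)^(k-1))) := by
  have hL := zpow_posM hM (k-1)
  have hmono := Fc_mono P hL.le z
  have hsub := Fc_succ_sub P hL.le z i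
  have hcomm : z + (i:ℝ)*(M:ℝ)^(k-1) = z + (M:ℝ)^(k-1) * i := by ring
  rw [hcomm] at hsub
  rcases eq_or_lt_of_le (measureReal_nonneg (μ := P) (s := Ico z (z + (M:ℝ)^k))) with h | h
  · have h0 : P (Ico z (z + (M:ℝ)^k)) = 0 := by
      rwa [eq_comm, measureReal_eq_zero_iff] at h
    rw [h0, zero_mul]
    symm
    refine measure_mono_null ?_ h0
    have hs := zpow_step hM k
    have hi' : (i:ℝ) + 1 ≤ M := by exact_mod_cast hi
    have hi0 : (0:ℝ) ≤ i := Nat.cast_nonneg _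
    refine Ico_subset_Ico ?_ ?_
    · nlinarith
    · nlinarith
  · have hFM : 0 < Fc P ((M:ℝ)^(k-1)) z M := by rw [Fc_top P hM]; exact h
    rw [leb_idx hmono (Fc_zero _ _ _) hFM hi, hsub, Fc_top P hM]
    have e : P (Ico z (z + (M:ℝ)^k)) = ENNReal.ofReal (P.real (Ico z (z + (M:ℝ)^k))) := by
      simp
    rw [e, ← ENNReal.ofReal_mul h.le, mul_div_cancel₀ _ h.ne']
    simp

lemma setLIntegral_split (P : Measure ℝ) {L : ℝ} (hL : 0 ≤ L) (z : ℝ) (f : ℝ → ℝ≥0∞) (n : ℕ) :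
    ∫⁻ x in Ico z (z + n*L), f x ∂P
      = ∑ i ∈ Finset.range n, ∫⁻ x in Ico (z + L * i) (z + L*i + L), f x ∂P := by
  induction n with
  | zero => simp
  | succ n ih =>
    rw [Finset.sum_range_succ, ← ih]
    have h1 : Ico z (z + ((n+1:ℕ):ℝ)*L) = Ico z (z + n*L) ∪ Ico (z+L*n) (z + L*n+L) := by
      rw [mul_comm L, Ico_union_Ico_eq_Ico]
      · congr 1; push_cast; ring
      · have : 0 ≤ (n:ℝ)*L := by positivity
        linarith
      · linarith
    rw [h1, lintegral_union measurableSet_Ico]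
    rw [mul_comm L]; exact Ico_disjoint_Ico_same

/-- the position after `j` steps has the law of the discretised restriction of `P` -/
lemma law_pos {M : ℕ} (hM : 1 ≤ M) (P : Measure ℝ) [IsFiniteMeasure P] (φ : ℝ → ℝ≥0∞)
    (hφ : Measurable φ) (j : ℕ) : ∀ (k : ℤ) (z : ℝ),
    P (Ico z (z + (M:ℝ)^k)) * ∫⁻ ω, φ (pos M P j k z ω) ∂(Measure.infinitePi (fun _ : ℤ => leb))
      = ∫⁻ x in Ico z (z + (M:ℝ)^k), φ (z + (M:ℝ)^(k-j) * ⌊(x-z)/(M:ℝ)^(k-j)⌋) ∂P := by
  induction j with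
  | zero =>
    intro k z
    have : ∫⁻ x in Ico z (z + (M:ℝ)^k), φ (z + (M:ℝ)^(k-(0:ℕ)) * ⌊(x-z)/(M:ℝ)^(k-(0:ℕ))⌋) ∂P
        = ∫⁻ x in Ico z (z + (M:ℝ)^k), φ z ∂P := by
      refine setLIntegral_congr_fun measurableSet_Ico (fun x hx => ?_)
      have hL := zpow_posM hM k
      have : ⌊(x-z)/(M:ℝ)^(k-(0:ℕ))⌋ = 0 := by
        simp only [Nat.cast_zero, sub_zero]
        rw [Int.floor_eq_zero_iff]
        exact ⟨div_nonneg (by linarith [hx.1]) hL.le, (div_lt_one hL).2 (by linarith [hx.2])⟩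
      simp only [this]; simp
    rw [this]
    simp [pos, mul_comm]
  | succ j ih =>
    intro k z
    set μ := Measure.infinitePi (fun _ : ℤ => leb) with hμ
    have hL := zpow_posM hM (k-1)
    have hm0 : Measurable (fun ω : ℤ → ℝ => φ (pos M P (j+1) k z ω)) :=
      hφ.comp ((measurable_pos hM P (j+1) k).comp (measurable_const.prodMk measurable_id))
    rw [hμ, lintegral_update (k-1) _ hm0]
    have h1 : ∀ ω : ℤ → ℝ, ∫⁻ u, φ (pos M P (j+1) k z (Function.update ω (k-1) u)) ∂leb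
        = ∑ i ∈ Finset.range M, leb {u | idx M (Fc P ((M:ℝ)^(k-1)) z) u = i}
          * φ (pos M P j (k-1) (z + (M:ℝ)^(k-1) * (i:ℕ)) ω) := by
      intro ω
      simp only [pos]
      simp_rw [pos_update P j (k-1) _ ω (k-1) _ le_rfl, Function.update_self]
      exact lintegral_idx hM (Fc P ((M:ℝ)^(k-1)) z)
        (fun i => φ (pos M P j (k-1) (z + (M:ℝ)^(k-1) * (i:ℕ)) ω))
    simp_rw [h1]
    have hmeas : ∀ i : ℕ, Measurable (fun ω : ℤ → ℝ =>
        φ (pos M P j (k-1) (z + (M:ℝ)^(k-1) * (i:ℕ)) ω)) := fun i =>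
      hφ.comp ((measurable_pos hM P j (k-1)).comp (measurable_const.prodMk measurable_id))
    rw [lintegral_finsetSum _ (fun i _ => (hmeas i).const_mul _), Finset.mul_sum]
    have h2 : ∫⁻ x in Ico z (z + (M:ℝ)^k), φ (z + (M:ℝ)^(k-((j+1:ℕ):ℤ))
        * ⌊(x-z)/(M:ℝ)^(k-((j+1:ℕ):ℤ))⌋) ∂P
        = ∑ i ∈ Finset.range M, ∫⁻ x in Ico (z + (M:ℝ)^(k-1) * i)
          (z + (M:ℝ)^(k-1)*i + (M:ℝ)^(k-1)), φ (z + (M:ℝ)^(k-((j+1:ℕ):ℤ))
          * ⌊(x-z)/(M:ℝ)^(k-((j+1:ℕ):ℤ))⌋) ∂P := by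
      rw [← zpow_step hM k]
      exact setLIntegral_split P hL.le z _ M
    rw [h2]
    refine Finset.sum_congr rfl (fun i hi => ?_)
    rw [lintegral_const_mul _ (hmeas i), ← mul_assoc, mass_idx P hM k z (Finset.mem_range.1 hi),
      ih (k-1) (z + (M:ℝ)^(k-1) * i)]
    refine lintegral_congr (fun x => ?_)
    congr 1
    have e : (k - 1 - (j:ℤ)) = k - ((j+1:ℕ):ℤ) := by push_cast; ring
    rw [e]
    set L := (M:ℝ)^(k-((j+1:ℕ):ℤ)) with hLd
    have hLpos : 0 < L := zpow_posM hM _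
    have hmul : (M:ℝ)^(k-1) = L * ((M^j : ℕ) : ℝ) := by
      rw [hLd]
      push_cast
      have hM0 : (M:ℝ) ≠ 0 := by positivity
      rw [← zpow_natCast, ← zpow_add₀ hM0]; congr 1; push_cast; ring
    rw [hmul]
    have : (x - (z + L * ((M^j:ℕ):ℝ) * i)) / L = (x - z)/L - (((M^j*i : ℕ) : ℤ) : ℝ) := by
      field_simp; push_cast; ring
    rw [this, Int.floor_sub_intCast]
    push_cast; ring

end Pool.Agent.U924.PC
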