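import Mathlib
import Pool.Agent.R972.PC.Defs
import Pool.Agent.U924.Pc.Idx
import Pool.Agent.U924.Pc.Pos

set_option autoImplicit false

open MeasureTheory Set Filter Topology
open scoped NNReal ENNReal

namespace Pool.Agent.U924.PC
open Pool.Agent.R972.PC (leb)

/-- real indicator of `[a,b)` -/
noncomputable def ind (a b x : ℝ) : ℝ := (Ico a b).indicator (fun _ => (1:ℝ)) x

lemma measurable_ind (a b : ℝ) : Measurable (ind a b) :=
  measurable_const.indicator measurableSet_Ico

lemma ind_nonneg (a b x : ℝ) : 0 ≤ ind a b x := indicator_nonneg (fun _ _ => zero_le_one) _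

lemma ind_le_one (a b x : ℝ) : ind a b x ≤ 1 :=
  indicator_le_self' (fun _ _ => zero_le_one) _

/-- pointwise discrepancy inside a cell -/
noncomputable def hh (M : ℕ) (L z x y : ℝ) : ℝ :=
  ∑ i ∈ Finset.range (M-1),
    (|ind z (z + ((i+1:ℕ):ℝ)*L) x - ind z (z + ((i+1:ℕ):ℝ)*L) y|
      + |ind z (z + (M:ℝ)*L) x - ind z (z + (M:ℝ)*L) y|)

lemma abs_mass_le {P Q : Measure ℝ} {γ : Measure (ℝ × ℝ)} [IsFiniteMeasure γ]
    (h1 : γ.map Prod.fst = P) (h2 : γ.map Prod.snd = Q) (a b : ℝ) :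
    ENNReal.ofReal |P.real (Ico a b) - Q.real (Ico a b)|
      ≤ ∫⁻ p, ENNReal.ofReal |ind a b p.1 - ind a b p.2| ∂γ := by
  have hi : ∀ f : ℝ × ℝ → ℝ, Measurable f → Integrable (fun p => ind a b (f p)) γ := by
    intro f hf
    refine Integrable.of_bound ((measurable_ind a b).comp hf).aestronglyMeasurable 1
      (ae_of_all _ (fun p => ?_))
    rw [Real.norm_eq_abs, abs_of_nonneg (ind_nonneg _ _ _)]
    exact ind_le_one _ _ _
  have hP : P.real (Ico a b) = ∫ p, ind a b p.1 ∂γ := by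
    rw [← h1, ← integral_indicator_one measurableSet_Ico]
    exact integral_map measurable_fst.aemeasurable (measurable_ind a b).aestronglyMeasurable
  have hQ : Q.real (Ico a b) = ∫ p, ind a b p.2 ∂γ := by
    rw [← h2, ← integral_indicator_one measurableSet_Ico]
    exact integral_map measurable_snd.aemeasurable (measurable_ind a b).aestronglyMeasurable
  rw [hP, hQ, ← integral_sub (hi _ measurable_fst) (hi _ measurable_snd)]
  have := enorm_integral_le_lintegral_enorm (μ := γ) (fun p => ind a b p.1 - ind a b p.2)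
  simpa only [Real.enorm_eq_ofReal_abs] using this

lemma measurable_abs_ind (a b : ℝ) :
    Measurable (fun p : ℝ × ℝ => ENNReal.ofReal |ind a b p.1 - ind a b p.2|) := by
  refine ENNReal.measurable_ofReal.comp (Measurable.abs ?_)
  exact ((measurable_ind a b).comp measurable_fst).sub ((measurable_ind a b).comp measurable_snd)

lemma ofReal_hh (M : ℕ) (L z x y : ℝ) : ENNReal.ofReal (hh M L z x y)
    = ∑ i ∈ Finset.range (M-1),
    (ENNReal.ofReal |ind z (z + ((i+1:ℕ):ℝ)*L) x - ind z (z + ((i+1:ℕ):ℝ)*L) y|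
      + ENNReal.ofReal |ind z (z + (M:ℝ)*L) x - ind z (z + (M:ℝ)*L) y|) := by
  rw [hh, ENNReal.ofReal_sum_of_nonneg (fun i _ => by positivity)]
  refine Finset.sum_congr rfl (fun i _ => ?_)
  rw [ENNReal.ofReal_add (abs_nonneg _) (abs_nonneg _)]

lemma measurable_hh (M : ℕ) (L z : ℝ) :
    Measurable (fun p : ℝ × ℝ => ENNReal.ofReal (hh M L z p.1 p.2)) := by
  simp_rw [ofReal_hh]
  exact Finset.measurable_sum _ (fun i _ => (measurable_abs_ind _ _).add (measurable_abs_ind _ _))

lemma disc_le {P Q : Measure ℝ} {γ : Measure (ℝ × ℝ)} [IsFiniteMeasure γ]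
    (h1 : γ.map Prod.fst = P) (h2 : γ.map Prod.snd = Q) (M : ℕ) (L z : ℝ) :
    ENNReal.ofReal (disc M (Fc P L z) (Fc Q L z))
      ≤ ∫⁻ p, ENNReal.ofReal (hh M L z p.1 p.2) ∂γ := by
  simp_rw [ofReal_hh]
  have hm : ∀ i ∈ Finset.range (M-1), Measurable (fun p : ℝ × ℝ =>
      ENNReal.ofReal |ind z (z + ((i+1:ℕ):ℝ)*L) p.1 - ind z (z + ((i+1:ℕ):ℝ)*L) p.2|
      + ENNReal.ofReal |ind z (z + (M:ℝ)*L) p.1 - ind z (z + (M:ℝ)*L) p.2|) := fun i _ =>
    (measurable_abs_ind _ _).add (measurable_abs_ind _ _)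
  rw [lintegral_finsetSum _ hm, disc, ENNReal.ofReal_sum_of_nonneg (fun i _ => by positivity)]
  refine Finset.sum_le_sum (fun i _ => ?_)
  rw [lintegral_add_left (measurable_abs_ind _ _), ENNReal.ofReal_add (abs_nonneg _) (abs_nonneg _)]
  exact add_le_add (abs_mass_le h1 h2 _ _) (abs_mass_le h1 h2 _ _)

/-- level coefficient -/
noncomputable def cc (M : ℕ) (q : ℝ) (k : ℤ) : ℝ≥0∞ := ENNReal.ofReal (2 * ((M:ℝ)^k)^q)

/-- accumulated pointwise discrepancy in the cell `[z, z+M^k)` over `j` levels -/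
noncomputable def Psi (M : ℕ) (q x y : ℝ) : ℕ → ℤ → ℝ → ℝ≥0∞
  | 0, _, _ => 0
  | j+1, k, z => cc M q (k-1) * ENNReal.ofReal (hh M ((M:ℝ)^(k-1)) z x y)
      + ∑ i ∈ Finset.range M, Psi M q x y j (k-1) (z + (M:ℝ)^(k-1) * (i:ℕ))

lemma measurable_Psi (M : ℕ) (q : ℝ) (j : ℕ) : ∀ (k : ℤ) (z : ℝ),
    Measurable (fun p : ℝ × ℝ => Psi M q p.1 p.2 j k z) := by
  induction j with
  | zero => intro k z; exact measurable_const
  | succ j ih =>
    intro k z
    exact ((measurable_hh M _ z).const_mul _).add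
      (Finset.measurable_sum _ (fun i _ => ih (k-1) _))

/-- cost of a split of indices -/
lemma split_cost {q L a b : ℝ} (hq : q ≤ 1) (hq0 : 0 < q) (hL : 0 < L) {z : ℝ} {i i' : ℕ}
    (hii : i ≠ i') (ha : a ∈ Ico (z + L * i) (z + L*i + L)) (hb : b ∈ Ico (z + L*i') (z+L*i'+L)) :
    |a - b|^q ≤ 2 * L^q * |(i:ℝ) - i'| := by
  have h1 : (1:ℝ) ≤ |(i:ℝ) - i'| := by
    have : (1:ℤ) ≤ |(i:ℤ) - i'| := Int.one_le_abs (sub_ne_zero.2 (by exact_mod_cast hii))
    have h2 : ((1:ℤ):ℝ) ≤ ((|(i:ℤ) - i'| : ℤ) : ℝ) := by exact_mod_cast this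
    simpa using h2
  have h2 : |a - b| ≤ L * (2 * |(i:ℝ) - i'|) := by
    have h3 : |a - b| ≤ L * |(i:ℝ) - i'| + L := by
      rw [abs_le]
      have h4 := le_abs_self ((i:ℝ) - i')
      have h5 := neg_abs_le ((i:ℝ) - i')
      have h6 := mul_le_mul_of_nonneg_left h4 hL.le
      have h7 := mul_le_mul_of_nonneg_left h5 hL.le
      constructor
      · nlinarith [ha.1, ha.2, hb.1, hb.2]
      · nlinarith [ha.1, ha.2, hb.1, hb.2]
    nlinarith
  calc |a - b|^q ≤ (L * (2 * |(i:ℝ) - i'|))^q :=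
        Real.rpow_le_rpow (abs_nonneg _) h2 hq0.le
    _ = L^q * (2 * |(i:ℝ) - i'|)^q := Real.mul_rpow hL.le (by positivity)
    _ ≤ L^q * (2 * |(i:ℝ) - i'|)^(1:ℝ) :=
        mul_le_mul_of_nonneg_left (Real.rpow_le_rpow_of_exponent_le (by linarith) hq)
          (by positivity)
    _ = 2 * L^q * |(i:ℝ) - i'| := by rw [Real.rpow_one]; ring

/-- the pair cost inside a cell -/
lemma cost_cell {M : ℕ} (hM : 1 ≤ M) {q : ℝ} (hq : q ≤ 1) (hq0 : 0 < q)
    {P Q : Measure ℝ} [IsFiniteMeasure P] [IsFiniteMeasure Q]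
    {γ : Measure (ℝ × ℝ)} [IsFiniteMeasure γ]
    (h1 : γ.map Prod.fst = P) (h2 : γ.map Prod.snd = Q) (j : ℕ) : ∀ (k : ℤ) (z : ℝ),
    min (P (Ico z (z + (M:ℝ)^k))) (Q (Ico z (z + (M:ℝ)^k)))
      * ∫⁻ ω, ENNReal.ofReal (|pos M P j k z ω - pos M Q j k z ω|^q)
          ∂(Measure.infinitePi (fun _ : ℤ => leb))
      ≤ ∫⁻ p, Psi M q p.1 p.2 j k z ∂γ := by
  induction j with
  | zero =>
    intro k z
    simp [pos, hq0.ne']
  | succ j ih =>
    intro k z
    set μ := Measure.infinitePi (fun _ : ℤ => leb) with hμ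
    have hL := zpow_posM hM (k-1)
    rcases eq_or_lt_of_le (measureReal_nonneg (μ := P) (s := Ico z (z + (M:ℝ)^k))) with hP0 | hP0
    · have h0 : P (Ico z (z + (M:ℝ)^k)) = 0 := by
        rwa [eq_comm, measureReal_eq_zero_iff] at hP0
      rw [h0]; simp
    rcases eq_or_lt_of_le (measureReal_nonneg (μ := Q) (s := Ico z (z + (M:ℝ)^k))) with hQ0 | hQ0
    · have h0 : Q (Ico z (z + (M:ℝ)^k)) = 0 := by
        rwa [eq_comm, measureReal_eq_zero_iff] at hQ0
      rw [h0]; simp
    set F := Fc P ((M:ℝ)^(k-1)) z with hF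
    set G := Fc Q ((M:ℝ)^(k-1)) z with hG
    have hFm : Monotone F := Fc_mono P hL.le z
    have hGm : Monotone G := Fc_mono Q hL.le z
    have hFM : 0 < F M := by rw [hF, Fc_top P hM]; exact hP0
    have hGM : 0 < G M := by rw [hG, Fc_top Q hM]; exact hQ0
    have hmin : min (P (Ico z (z + (M:ℝ)^k))) (Q (Ico z (z + (M:ℝ)^k)))
        = ENNReal.ofReal (min (F M) (G M)) := by
      rw [ENNReal.ofReal_min, hF, hG, Fc_top P hM, Fc_top Q hM]
      simp
    have hmeasP : ∀ (j : ℕ) (k : ℤ) (z : ℝ), Measurable (fun ω : ℤ → ℝ =>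
        ENNReal.ofReal (|pos M P j k z ω - pos M Q j k z ω|^q)) := by
      intro j k z
      have e1 : Measurable (fun ω : ℤ → ℝ => pos M P j k z ω) :=
        (measurable_pos hM P j k).comp (measurable_const.prodMk measurable_id)
      have e2 : Measurable (fun ω : ℤ → ℝ => pos M Q j k z ω) :=
        (measurable_pos hM Q j k).comp (measurable_const.prodMk measurable_id)
      exact ENNReal.measurable_ofReal.comp ((e1.sub e2).abs.pow_const q)
    set D : ℕ → (ℤ → ℝ) → ℝ≥0∞ := fun i ω =>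
      ENNReal.ofReal (|pos M P j (k-1) (z + (M:ℝ)^(k-1) * (i:ℕ)) ω
        - pos M Q j (k-1) (z + (M:ℝ)^(k-1) * (i:ℕ)) ω|^q) with hD
    have hDm : ∀ i, Measurable (D i) := fun i => hmeasP j (k-1) _
    have hmsF : ∀ i, MeasurableSet {u | idx M F u = i ∧ idx M G u = i} := fun i =>
      ((measurable_idx M F) (measurableSet_singleton i)).inter
        ((measurable_idx M G) (measurableSet_singleton i))
    have hcm : Measurable (fun u => ENNReal.ofReal |(idx M F u : ℝ) - idx M G u|) := by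
      have h3 : Measurable (fun n : ℕ => (n:ℝ)) := measurable_from_top
      exact ENNReal.measurable_ofReal.comp
        (((h3.comp (measurable_idx M F)).sub (h3.comp (measurable_idx M G))).abs)
    have hpt : ∀ (ω : ℤ → ℝ) (u : ℝ),
        ENNReal.ofReal (|pos M P (j+1) k z (Function.update ω (k-1) u)
          - pos M Q (j+1) k z (Function.update ω (k-1) u)|^q)
        ≤ (∑ i ∈ Finset.range M,
            ({u | idx M F u = i ∧ idx M G u = i}).indicator (fun _ => D i ω) u)
          + cc M q (k-1) * ENNReal.ofReal |(idx M F u : ℝ) - idx M G u| := by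
      intro ω u
      simp only [pos]
      rw [pos_update P j (k-1) _ ω (k-1) _ le_rfl, pos_update Q j (k-1) _ ω (k-1) _ le_rfl,
        Function.update_self]
      by_cases hij : idx M F u = idx M G u
      · refine le_add_right ?_
        refine le_trans ?_ (Finset.single_le_sum (fun i _ => bot_le)
          (Finset.mem_range.2 (idx_lt hM F u)))
        rw [indicator_of_mem (show u ∈ {v | idx M F v = idx M F u ∧ idx M G v = idx M F u} from
          ⟨rfl, hij.symm⟩)]
        simp only [hD]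
        rw [← hij]
      · refine le_add_left ?_
        rw [cc, ← ENNReal.ofReal_mul (by positivity)]
        refine ENNReal.ofReal_le_ofReal ?_
        exact split_cost hq hq0 hL hij (pos_mem hM P j (k-1) _ ω) (pos_mem hM Q j (k-1) _ ω)
    have hint : ∀ ω : ℤ → ℝ, ∫⁻ u, ENNReal.ofReal (|pos M P (j+1) k z (Function.update ω (k-1) u)
          - pos M Q (j+1) k z (Function.update ω (k-1) u)|^q) ∂leb
        ≤ (∑ i ∈ Finset.range M, leb {u | idx M F u = i ∧ idx M G u = i} * D i ω)
          + cc M q (k-1) * ∫⁻ u, ENNReal.ofReal |(idx M F u : ℝ) - idx M G u| ∂leb := by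
      intro ω
      refine (lintegral_mono (hpt ω)).trans ?_
      rw [lintegral_add_right _ (hcm.const_mul _), lintegral_const_mul _ hcm,
        lintegral_finsetSum _ (fun i _ => measurable_const.indicator (hmsF i))]
      refine add_le_add (Finset.sum_le_sum (fun i _ => ?_)) le_rfl
      rw [lintegral_indicator (hmsF i), setLIntegral_const, mul_comm]
    rw [hμ, lintegral_update (k-1) _ (hmeasP (j+1) k z), ← hμ, hmin]
    calc _ ≤ ENNReal.ofReal (min (F M) (G M)) * ∫⁻ ω,
          ((∑ i ∈ Finset.range M, leb {u | idx M F u = i ∧ idx M G u = i} * D i ω)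
          + cc M q (k-1) * ∫⁻ u, ENNReal.ofReal |(idx M F u : ℝ) - idx M G u| ∂leb) ∂μ := by
          gcongr with ω
          exact hint ω
      _ = (∑ i ∈ Finset.range M, ENNReal.ofReal (min (F M) (G M))
            * leb {u | idx M F u = i ∧ idx M G u = i} * ∫⁻ ω, D i ω ∂μ)
          + cc M q (k-1) * (ENNReal.ofReal (min (F M) (G M))
            * ∫⁻ u, ENNReal.ofReal |(idx M F u : ℝ) - idx M G u| ∂leb) := by
          rw [lintegral_add_right _ measurable_const,
            lintegral_finsetSum _ (fun i _ => (hDm i).const_mul _), mul_add, Finset.mul_sum]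
          congr 1
          · refine Finset.sum_congr rfl (fun i _ => ?_)
            rw [lintegral_const_mul _ (hDm i), mul_assoc]
          · rw [lintegral_const, measure_univ, mul_one]; ring
      _ ≤ (∑ i ∈ Finset.range M, ∫⁻ p, Psi M q p.1 p.2 j (k-1) (z + (M:ℝ)^(k-1) * (i:ℕ)) ∂γ)
          + cc M q (k-1) * ∫⁻ p, ENNReal.ofReal (hh M ((M:ℝ)^(k-1)) z p.1 p.2) ∂γ := by
          refine add_le_add (Finset.sum_le_sum (fun i hi => ?_)) ?_
          · refine le_trans ?_ (ih (k-1) (z + (M:ℝ)^(k-1) * (i:ℕ)))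
            refine mul_le_mul_left ?_ _
            refine (pair_diag hFm hGm (Fc_zero _ _ _) (Fc_zero _ _ _) hFM hGM
              (Finset.mem_range.1 hi)).trans ?_
            rw [hF, hG, Fc_succ_sub P hL.le, Fc_succ_sub Q hL.le, ENNReal.ofReal_min,
              mul_comm ((i:ℕ):ℝ)]
            simp
          · refine mul_le_mul_right ?_ _
            exact (pair_disc hFm hGm (Fc_zero _ _ _) (Fc_zero _ _ _) hFM hGM).trans
              (disc_le h1 h2 M _ z)
      _ = ∫⁻ p, Psi M q p.1 p.2 (j+1) k z ∂γ := by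
          simp only [Psi]
          rw [lintegral_add_left ((measurable_hh M _ z).const_mul _),
            lintegral_const_mul _ (measurable_hh M _ z),
            lintegral_finsetSum _ (fun i _ => measurable_Psi M q j (k-1) _), add_comm]

end Pool.Agent.U924.PC
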