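import Mathlib
import Pool.Agent.R972.PC.Defs
import Pool.Agent.U924.Pc.Idx
import Pool.Agent.U924.Pc.Pos
import Pool.Agent.U924.Pc.Cost

set_option autoImplicit false

open MeasureTheory Set Filter Topology
open scoped NNReal ENNReal

namespace Pool.Agent.U924.PC
open Pool.Agent.R972.PC (leb)

/-- number of level-`k` grid points between `x` and `y` (grid through `z`) -/
noncomputable def NN (M : ℕ) (k : ℤ) (z x y : ℝ) : ℝ :=
  |(⌊(x-z)/(M:ℝ)^k⌋:ℝ) - ⌊(y-z)/(M:ℝ)^k⌋|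

/-- the level-`k` contribution -/
noncomputable def HH (M : ℕ) (k : ℤ) (z x y : ℝ) : ℝ≥0∞ :=
  if ⌊(x-z)/(M:ℝ)^(k+1)⌋ = ⌊(y-z)/(M:ℝ)^(k+1)⌋ then ENNReal.ofReal (NN M k z x y) else 4*M

lemma floor_up {M : ℕ} (hM : 1 ≤ M) {a b : ℝ} (k : ℤ) (l : ℕ)
    (h : ⌊a/(M:ℝ)^(k-l)⌋ = ⌊b/(M:ℝ)^(k-l)⌋) : ⌊a/(M:ℝ)^k⌋ = ⌊b/(M:ℝ)^k⌋ := by
  have hM0 : (M:ℝ) ≠ 0 := by positivity
  have e : (M:ℝ)^k = (M:ℝ)^(k-l) * ((M^l : ℕ):ℝ) := by
    push_cast
    rw [← zpow_natCast, ← zpow_add₀ hM0]; congr 1; ring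
  rw [e, ← div_div, ← div_div, Int.floor_div_natCast, Int.floor_div_natCast, h]

lemma ind_split {L : ℝ} (hL : 0 ≤ L) (z x : ℝ) (n : ℕ) :
    ∑ i ∈ Finset.range n, ind (z + L * (i:ℕ)) (z + L * (i:ℕ) + L) x = ind z (z + n*L) x := by
  induction n with
  | zero => simp [ind]
  | succ n ih =>
    rw [Finset.sum_range_succ, ih]
    have h1 : Ico z (z + ((n+1:ℕ):ℝ)*L) = Ico z (z + n*L) ∪ Ico (z+L*n) (z + L*n+L) := by
      rw [mul_comm L, Ico_union_Ico_eq_Ico]
      · congr 1; push_cast; ring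
      · have : 0 ≤ (n:ℝ)*L := by positivity
        linarith
      · linarith
    have hd : Disjoint (Ico z (z + n*L)) (Ico (z+L*n) (z + L*n+L)) := by
      rw [mul_comm L]; exact Ico_disjoint_Ico_same
    unfold ind
    rw [h1, indicator_union_of_disjoint hd]

lemma ind_mono {a b c x : ℝ} (h : b ≤ c) : ind a b x ≤ ind a c x :=
  indicator_le_indicator_of_subset (Ico_subset_Ico_right h) (fun _ => zero_le_one) _

lemma hh_le {M : ℕ} {L : ℝ} (hL : 0 ≤ L) (z x y : ℝ) :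
    hh M L z x y ≤ (2*M) * (ind z (z + M*L) x + ind z (z + M*L) y) := by
  set s := ind z (z + M*L) x + ind z (z + M*L) y with hs
  have hs0 : 0 ≤ s := add_nonneg (ind_nonneg _ _ _) (ind_nonneg _ _ _)
  have habs : ∀ b x y, |ind z b x - ind z b y| ≤ ind z b x + ind z b y := by
    intro b x y
    rw [abs_le]
    have := ind_nonneg z b x
    have := ind_nonneg z b y
    constructor <;> linarith
  calc hh M L z x y ≤ ∑ i ∈ Finset.range (M-1), 2*s := by
        unfold hh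
        refine Finset.sum_le_sum (fun i hi => ?_)
        have hi' : i + 1 ≤ M := by have := Finset.mem_range.1 hi; omega
        have hle : z + ((i+1:ℕ):ℝ)*L ≤ z + M*L := by
          have : ((i+1:ℕ):ℝ) ≤ M := by exact_mod_cast hi'
          nlinarith
        have h1 := habs (z + ((i+1:ℕ):ℝ)*L) x y
        have h2 := habs (z + (M:ℝ)*L) x y
        have h3 := ind_mono (a := z) (x := x) hle
        have h4 := ind_mono (a := z) (x := y) hle
        linarith
    _ = ((M-1:ℕ):ℝ) * (2*s) := by rw [Finset.sum_const, Finset.card_range, nsmul_eq_mul]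
    _ ≤ (M:ℝ) * (2*s) := by
        gcongr
        omega
    _ = _ := by ring

lemma Psi_le_A {M : ℕ} (hM : 1 ≤ M) (q x y : ℝ) (j : ℕ) : ∀ (k : ℤ) (z : ℝ),
    Psi M q x y j k z ≤ ENNReal.ofReal (ind z (z + (M:ℝ)^k) x + ind z (z + (M:ℝ)^k) y)
      * ∑ l ∈ Finset.range j, cc M q (k-1-l) * (2*M) := by
  induction j with
  | zero => intro k z; simp [Psi]
  | succ j ih =>
    intro k z
    have hL := zpow_posM hM (k-1)
    have hs := zpow_step hM k
    rw [Finset.sum_range_succ', Psi, mul_add, add_comm]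
    refine add_le_add ?_ ?_
    · calc _ ≤ ∑ i ∈ Finset.range M,
            ENNReal.ofReal (ind (z + (M:ℝ)^(k-1) * (i:ℕ)) (z + (M:ℝ)^(k-1) * (i:ℕ) + (M:ℝ)^(k-1)) x
              + ind (z + (M:ℝ)^(k-1) * (i:ℕ)) (z + (M:ℝ)^(k-1) * (i:ℕ) + (M:ℝ)^(k-1)) y)
            * ∑ l ∈ Finset.range j, cc M q (k-1-1-l) * (2*M) :=
            Finset.sum_le_sum (fun i _ => ih (k-1) _)
        _ = _ := by
            rw [← Finset.sum_mul, ← ENNReal.ofReal_sum_of_nonneg
              (fun i _ => add_nonneg (ind_nonneg _ _ _) (ind_nonneg _ _ _)),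
              Finset.sum_add_distrib, ind_split hL.le, ind_split hL.le, hs]
            congr 1
            refine Finset.sum_congr rfl (fun l _ => ?_)
            congr 2; push_cast; ring
    · have h1 := hh_le (M := M) hL.le z x y
      rw [hs] at h1
      have h2 : ENNReal.ofReal (hh M ((M:ℝ)^(k-1)) z x y)
          ≤ (2*M) * ENNReal.ofReal (ind z (z + (M:ℝ)^k) x + ind z (z + (M:ℝ)^k) y) := by
        refine (ENNReal.ofReal_le_ofReal h1).trans (le_of_eq ?_)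
        rw [ENNReal.ofReal_mul (by positivity)]
        congr 1
        rw [ENNReal.ofReal_mul (by norm_num)]
        simp
      calc _ ≤ cc M q (k-1) * ((2*M) * ENNReal.ofReal (ind z (z + (M:ℝ)^k) x
              + ind z (z + (M:ℝ)^k) y)) := by gcongr
        _ = _ := by simp only [Nat.cast_zero, sub_zero]; ring

lemma child_of_mem {M : ℕ} (hM : 1 ≤ M) {L : ℝ} (hL : 0 < L) {z x : ℝ}
    (hx : x ∈ Ico z (z + M*L)) :
    ∃ a : ℕ, a < M ∧ x ∈ Ico (z + L*a) (z + L*a + L) ∧ ⌊(x-z)/L⌋ = (a:ℤ) := by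
  have h0 : 0 ≤ (x-z)/L := div_nonneg (by linarith [hx.1]) hL.le
  have h1 : (x-z)/L < M := by rw [div_lt_iff₀ hL]; linarith [hx.2]
  refine ⟨⌊(x-z)/L⌋.toNat, ?_, ?_, ?_⟩
  · have h2 : ⌊(x-z)/L⌋ < (M:ℤ) := Int.floor_lt.2 (by exact_mod_cast h1)
    have h3 : 0 ≤ ⌊(x-z)/L⌋ := Int.floor_nonneg.2 h0
    omega
  · have h3 : 0 ≤ ⌊(x-z)/L⌋ := Int.floor_nonneg.2 h0
    have h4 : ((⌊(x-z)/L⌋.toNat : ℕ) : ℝ) = (⌊(x-z)/L⌋ : ℝ) := by
      have : ((⌊(x-z)/L⌋.toNat : ℕ) : ℤ) = ⌊(x-z)/L⌋ := Int.toNat_of_nonneg h3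
      exact_mod_cast this
    rw [h4]
    have h5 := Int.floor_le ((x-z)/L)
    have h6 := Int.lt_floor_add_one ((x-z)/L)
    rw [le_div_iff₀ hL] at h5
    rw [div_lt_iff₀ hL] at h6
    constructor <;> nlinarith
  · rw [Int.toNat_of_nonneg (Int.floor_nonneg.2 h0)]

lemma count_le (a b n : ℕ) :
    ∑ i ∈ Finset.range n, |(if a ≤ i then (1:ℝ) else 0) - (if b ≤ i then 1 else 0)|
      ≤ |(a:ℝ) - b| := by
  wlog hab : a ≤ b generalizing a b with H
  · have := H b a (le_of_not_ge hab)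
    rw [abs_sub_comm (a:ℝ)]
    refine le_trans (le_of_eq ?_) this
    exact Finset.sum_congr rfl (fun i _ => abs_sub_comm _ _)
  have h1 : ∀ i, |(if a ≤ i then (1:ℝ) else 0) - (if b ≤ i then 1 else 0)|
      = if (a ≤ i ∧ i < b) then 1 else 0 := by
    intro i
    by_cases h1 : a ≤ i <;> by_cases h2 : b ≤ i
    · simp [h1, h2]
    · simp [h1, h2, not_le.1 h2]
    · exact absurd (hab.trans h2) h1
    · simp [h1, h2]
  simp_rw [h1]
  rw [Finset.sum_ite, Finset.sum_const_zero, add_zero, Finset.sum_const, nsmul_eq_mul, mul_one]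
  have h2 : ((Finset.range n).filter (fun i => a ≤ i ∧ i < b)).card ≤ b - a := by
    rw [← Nat.card_Ico]
    refine Finset.card_le_card (fun i hi => ?_)
    simp only [Finset.mem_filter] at hi
    exact Finset.mem_Ico.2 hi.2
  rw [abs_sub_comm, abs_of_nonneg (sub_nonneg.2 (by exact_mod_cast hab))]
  have h3 : (((b - a : ℕ)) : ℝ) = (b:ℝ) - a := Nat.cast_sub hab
  rw [← h3]; exact_mod_cast h2

lemma hh_le_both {M : ℕ} (hM : 1 ≤ M) {L : ℝ} (hL : 0 < L) {z x y : ℝ} {a b : ℕ}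
    (hx : x ∈ Ico (z + L*a) (z + L*a + L)) (hy : y ∈ Ico (z + L*b) (z + L*b + L))
    (hx' : x ∈ Ico z (z + M*L)) (hy' : y ∈ Ico z (z + M*L)) :
    hh M L z x y ≤ |(a:ℝ) - b| := by
  have key : ∀ (x : ℝ) (a : ℕ), x ∈ Ico (z + L*a) (z + L*a + L) → ∀ i : ℕ,
      ind z (z + ((i+1:ℕ):ℝ)*L) x = if a ≤ i then 1 else 0 := by
    intro x a hx i
    have ha0 : (0:ℝ) ≤ a := Nat.cast_nonneg _
    have hzx : z ≤ x := by nlinarith [hx.1]
    unfold ind
    by_cases h : a ≤ i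
    · rw [if_pos h, indicator_of_mem]
      refine ⟨hzx, ?_⟩
      have : (a:ℝ) + 1 ≤ ((i+1:ℕ):ℝ) := by exact_mod_cast Nat.succ_le_succ h
      nlinarith [hx.2]
    · rw [if_neg h, indicator_of_notMem]
      rintro ⟨_, h2⟩
      have : ((i+1:ℕ):ℝ) ≤ a := by exact_mod_cast (not_le.1 h)
      nlinarith [hx.1]
  unfold hh
  have h2 : ind z (z + (M:ℝ)*L) x = 1 := indicator_of_mem hx' _
  have h3 : ind z (z + (M:ℝ)*L) y = 1 := indicator_of_mem hy' _
  simp_rw [key x a hx, key y b hy, h2, h3]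
  simpa using count_le a b (M-1)

lemma HH_shift {M : ℕ} (hM : 1 ≤ M) (k : ℤ) (z x y : ℝ) (c : ℤ) :
    HH M k (z + (M:ℝ)^(k+1) * c) x y = HH M k z x y := by
  have hL := zpow_posM hM k
  have hL1 := zpow_posM hM (k+1)
  have hM0 : (M:ℝ) ≠ 0 := by positivity
  have e1 : ∀ x : ℝ, ⌊(x - (z + (M:ℝ)^(k+1) * c))/(M:ℝ)^(k+1)⌋ = ⌊(x-z)/(M:ℝ)^(k+1)⌋ - c := by
    intro x
    have : (x - (z + (M:ℝ)^(k+1) * c))/(M:ℝ)^(k+1) = (x-z)/(M:ℝ)^(k+1) - c := by
      field_simp; ring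
    rw [this, Int.floor_sub_intCast]
  have e2 : ∀ x : ℝ, ⌊(x - (z + (M:ℝ)^(k+1) * c))/(M:ℝ)^k⌋ = ⌊(x-z)/(M:ℝ)^k⌋ - M*c := by
    intro x
    have : (x - (z + (M:ℝ)^(k+1) * c))/(M:ℝ)^k = (x-z)/(M:ℝ)^k - ((M*c : ℤ):ℝ) := by
      rw [zpow_add_one₀ hM0]; push_cast
      field_simp; ring
    rw [this, Int.floor_sub_intCast]
  unfold HH NN
  rw [e1, e1, e2, e2]
  push_cast
  simp only [sub_left_inj, sub_sub_sub_cancel_right]

lemma Psi_le_B {M : ℕ} (hM : 1 ≤ M) (q x y : ℝ) (j : ℕ) : ∀ (k : ℤ) (z : ℝ),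
    x ∈ Ico z (z + (M:ℝ)^k) → y ∈ Ico z (z + (M:ℝ)^k) →
    Psi M q x y j k z ≤ ∑ l ∈ Finset.range j, cc M q (k-1-l) * HH M (k-1-l) z x y := by
  induction j with
  | zero => intro k z _ _; simp [Psi]
  | succ j ih =>
    intro k z hx hy
    have hL := zpow_posM hM (k-1)
    have hs := zpow_step hM k
    have hLk := zpow_posM hM k
    rw [← hs] at hx hy
    obtain ⟨a, haM, hxa, hfa⟩ := child_of_mem hM hL hx
    obtain ⟨b, hbM, hyb, hfb⟩ := child_of_mem hM hL hy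
    rw [Finset.sum_range_succ', Psi, add_comm]
    refine add_le_add ?_ ?_
    · by_cases hab : a = b
      · subst hab
        rw [Finset.sum_eq_single a]
        · refine (ih (k-1) (z + (M:ℝ)^(k-1)*(a:ℕ)) hxa hyb).trans (le_of_eq ?_)
          refine Finset.sum_congr rfl (fun l _ => ?_)
          have e : k - 1 - 1 - (l:ℤ) = k - 1 - ((l+1:ℕ):ℤ) := by push_cast; ring
          rw [e]
          congr 1
          have e2 : (M:ℝ)^(k-1) * (a:ℕ) = (M:ℝ)^(k - 1 - ((l+1:ℕ):ℤ) + 1) * (((M^l*a : ℕ) : ℤ):ℝ) := by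
            have hM0 : (M:ℝ) ≠ 0 := by positivity
            push_cast
            rw [← zpow_natCast, ← mul_assoc, ← zpow_add₀ hM0]; congr 2; ring
          rw [e2, HH_shift hM]
        · intro i _ hia
          have h0 := Psi_le_A hM q x y j (k-1) (z + (M:ℝ)^(k-1) * (i:ℕ))
          have hnot : ∀ w ∈ Ico (z + (M:ℝ)^(k-1)*a) (z + (M:ℝ)^(k-1)*a + (M:ℝ)^(k-1)),
              ind (z + (M:ℝ)^(k-1) * (i:ℕ)) (z + (M:ℝ)^(k-1) * (i:ℕ) + (M:ℝ)^(k-1)) w = 0 := by
            intro w hw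
            refine indicator_of_notMem ?_ _
            rintro ⟨h1, h2⟩
            rcases lt_or_gt_of_ne hia with h | h
            · have : (i:ℝ) + 1 ≤ a := by exact_mod_cast h
              nlinarith [hw.1, hw.2]
            · have : (a:ℝ) + 1 ≤ i := by exact_mod_cast h
              nlinarith [hw.1, hw.2]
          rw [hnot x hxa, hnot y hyb] at h0
          simpa using h0
        · intro h; exact absurd (Finset.mem_range.2 haM) h
      · have hne : ∀ l : ℕ, HH M (k-1-((l+1:ℕ):ℤ)) z x y = 4*M := by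
          intro l
          unfold HH
          rw [if_neg]
          intro h
          have e : k - 1 - ((l+1:ℕ):ℤ) + 1 = (k-1) - l := by push_cast; ring
          rw [e] at h
          have := floor_up hM (k-1) l h
          rw [hfa, hfb] at this
          exact hab (by exact_mod_cast this)
        calc _ ≤ ∑ i ∈ Finset.range M,
            ENNReal.ofReal (ind (z + (M:ℝ)^(k-1) * (i:ℕ)) (z + (M:ℝ)^(k-1) * (i:ℕ) + (M:ℝ)^(k-1)) x
              + ind (z + (M:ℝ)^(k-1) * (i:ℕ)) (z + (M:ℝ)^(k-1) * (i:ℕ) + (M:ℝ)^(k-1)) y)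
            * ∑ l ∈ Finset.range j, cc M q (k-1-1-l) * (2*M) :=
            Finset.sum_le_sum (fun i _ => Psi_le_A hM q x y j (k-1) _)
          _ ≤ 2 * ∑ l ∈ Finset.range j, cc M q (k-1-1-l) * (2*M) := by
            rw [← Finset.sum_mul, ← ENNReal.ofReal_sum_of_nonneg
              (fun i _ => add_nonneg (ind_nonneg _ _ _) (ind_nonneg _ _ _)),
              Finset.sum_add_distrib, ind_split hL.le, ind_split hL.le]
            refine mul_le_mul_left ?_ _
            rw [← ENNReal.ofReal_ofNat]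
            refine ENNReal.ofReal_le_ofReal ?_
            have := ind_le_one z (z + M*(M:ℝ)^(k-1)) x
            have := ind_le_one z (z + M*(M:ℝ)^(k-1)) y
            linarith
          _ = _ := by
            rw [Finset.mul_sum]
            refine Finset.sum_congr rfl (fun l _ => ?_)
            rw [hne l]
            have e : k - 1 - 1 - (l:ℤ) = k - 1 - ((l+1:ℕ):ℤ) := by push_cast; ring
            rw [e]; ring
    · simp only [Nat.cast_zero, sub_zero]
      refine mul_le_mul_right ?_ _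
      have hz : ∀ w ∈ Ico z (z + M*(M:ℝ)^(k-1)), ⌊(w-z)/(M:ℝ)^(k-1+1)⌋ = 0 := by
        intro w hw
        rw [Int.floor_eq_zero_iff, sub_add_cancel]
        rw [hs] at hw
        exact ⟨div_nonneg (by linarith [hw.1]) hLk.le, (div_lt_one hLk).2 (by linarith [hw.2])⟩
      unfold HH NN
      rw [hz x hx, hz y hy, if_pos rfl, hfa, hfb]
      refine ENNReal.ofReal_le_ofReal ?_
      simpa using hh_le_both hM hL hxa hyb hx hy

lemma Psi_le {M : ℕ} (hM : 1 ≤ M) (q x y : ℝ) (j : ℕ) (k : ℤ) (z : ℝ) :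
    Psi M q x y j k z ≤ ∑ l ∈ Finset.range j, cc M q (k-1-l) * HH M (k-1-l) z x y := by
  have hLk := zpow_posM hM k
  have hfz : ∀ w : ℝ, w ∈ Ico z (z + (M:ℝ)^k) ↔ ⌊(w-z)/(M:ℝ)^k⌋ = 0 := by
    intro w
    rw [Int.floor_eq_zero_iff]
    constructor
    · intro hw
      exact ⟨div_nonneg (by linarith [hw.1]) hLk.le, (div_lt_one hLk).2 (by linarith [hw.2])⟩
    · intro hw
      have h1 := (div_lt_one hLk).1 hw.2
      have h2 : 0 ≤ w - z := by
        by_contra hc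
        push Not at hc
        exact absurd hw.1 (not_le.2 (div_neg_of_neg_of_pos hc hLk))
      exact ⟨by linarith, by linarith⟩
  by_cases hx : x ∈ Ico z (z + (M:ℝ)^k) <;> by_cases hy : y ∈ Ico z (z + (M:ℝ)^k)
  · exact Psi_le_B hM q x y j k z hx hy
  · have hne : ⌊(x-z)/(M:ℝ)^k⌋ ≠ ⌊(y-z)/(M:ℝ)^k⌋ := by
      rw [(hfz x).1 hx]; exact fun h => hy ((hfz y).2 h.symm)
    refine (Psi_le_A hM q x y j k z).trans ?_
    have e1 : ind z (z + (M:ℝ)^k) x = 1 := indicator_of_mem hx _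
    have e2 : ind z (z + (M:ℝ)^k) y = 0 := indicator_of_notMem hy _
    rw [e1, e2, add_zero, ENNReal.ofReal_one, one_mul]
    refine Finset.sum_le_sum (fun l _ => mul_le_mul_right ?_ _)
    unfold HH
    rw [if_neg]
    · gcongr; norm_num
    · intro h
      have e : k - 1 - (l:ℤ) + 1 = k - l := by ring
      rw [e] at h
      exact hne (floor_up hM k l h)
  · have hne : ⌊(x-z)/(M:ℝ)^k⌋ ≠ ⌊(y-z)/(M:ℝ)^k⌋ := by
      rw [(hfz y).1 hy]; exact fun h => hx ((hfz x).2 h)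
    refine (Psi_le_A hM q x y j k z).trans ?_
    have e1 : ind z (z + (M:ℝ)^k) y = 1 := indicator_of_mem hy _
    have e2 : ind z (z + (M:ℝ)^k) x = 0 := indicator_of_notMem hx _
    rw [e1, e2, zero_add, ENNReal.ofReal_one, one_mul]
    refine Finset.sum_le_sum (fun l _ => mul_le_mul_right ?_ _)
    unfold HH
    rw [if_neg]
    · gcongr; norm_num
    · intro h
      have e : k - 1 - (l:ℤ) + 1 = k - l := by ring
      rw [e] at h
      exact hne (floor_up hM k l h)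
  · refine (Psi_le_A hM q x y j k z).trans ?_
    have e1 : ind z (z + (M:ℝ)^k) y = 0 := indicator_of_notMem hy _
    have e2 : ind z (z + (M:ℝ)^k) x = 0 := indicator_of_notMem hx _
    rw [e1, e2]; simp

end Pool.Agent.U924.PC
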