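import Mathlib
import Pool.Agent.R972.PC.Defs
import Pool.Agent.U924.Pc.Idx
import Pool.Agent.U924.Pc.Pos
import Pool.Agent.U924.Pc.Cost
import Pool.Agent.U924.Pc.PsiB

set_option autoImplicit false

open MeasureTheory Set Filter Topology
open scoped NNReal ENNReal

namespace Pool.Agent.U924.PC
open Pool.Agent.R972.PC (leb)

/-- left end of the level-`n` cell containing `0` in the random nested grid -/
noncomputable def bb (M : ℕ) : ℕ → (ℕ → ℝ) → ℝ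
  | 0, v => - Int.fract (v 0)
  | n+1, v => bb M n v - (M:ℝ)^n * (idx M (fun i => (i:ℝ)) (v (n+1)) : ℕ)

lemma bb_range {M : ℕ} (hM : 1 ≤ M) (n : ℕ) (v : ℕ → ℝ) :
    bb M n v ≤ 0 ∧ 0 < bb M n v + (M:ℝ)^n := by
  induction n with
  | zero =>
    simp only [bb, pow_zero]
    have h1 := Int.fract_nonneg (v 0)
    have h2 := Int.fract_lt_one (v 0)
    constructor <;> linarith
  | succ n ih =>
    simp only [bb]
    have hi : ((idx M (fun i => (i:ℝ)) (v (n+1)) : ℕ) : ℝ) + 1 ≤ M := by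
      exact_mod_cast idx_lt hM (fun i => (i:ℝ)) (v (n+1))
    have hi0 : (0:ℝ) ≤ ((idx M (fun i => (i:ℝ)) (v (n+1)) : ℕ) : ℝ) := Nat.cast_nonneg _
    have hp : 0 < (M:ℝ)^n := by positivity
    constructor
    · nlinarith [ih.1]
    · rw [pow_succ]; nlinarith [ih.2]

lemma bb_cong {M : ℕ} (k : ℕ) (v : ℕ → ℝ) (j : ℕ) :
    ∃ c : ℤ, bb M (k+j) v = bb M k v + (M:ℝ)^k * c := by
  induction j with
  | zero => exact ⟨0, by simp⟩
  | succ j ih =>
    obtain ⟨c, hc⟩ := ih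
    refine ⟨c - M^j * (idx M (fun i => (i:ℝ)) (v (k+j+1)) : ℕ), ?_⟩
    rw [← add_assoc]
    simp only [bb]
    rw [hc]; push_cast; ring

lemma measurable_bb (M : ℕ) (n : ℕ) : Measurable (bb M n) := by
  induction n with
  | zero => exact ((measurable_pi_apply 0).fract).neg
  | succ n ih =>
    have h3 : Measurable (fun n : ℕ => (n:ℝ)) := measurable_from_top
    have h4 : Measurable (fun v : ℕ → ℝ => idx M (fun i => (i:ℝ)) (v (n+1))) :=
      (measurable_idx M _).comp (measurable_pi_apply (n+1))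
    exact ih.sub ((h3.comp h4).const_mul _)

lemma bb_update {M : ℕ} (n : ℕ) (v : ℕ → ℝ) (m : ℕ) (u : ℝ) (h : n < m) :
    bb M n (Function.update v m u) = bb M n v := by
  induction n with
  | zero => simp only [bb]; rw [Function.update_of_ne (by omega)]
  | succ n ih => simp only [bb]; rw [ih (by omega), Function.update_of_ne (by omega)]

lemma NN_shift {M : ℕ} (hM : 1 ≤ M) (k : ℤ) (z x y : ℝ) (c : ℤ) :
    NN M k (z + (M:ℝ)^k * c) x y = NN M k z x y := by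
  have hL := zpow_posM hM k
  have e1 : ∀ x : ℝ, ⌊(x - (z + (M:ℝ)^k * c))/(M:ℝ)^k⌋ = ⌊(x-z)/(M:ℝ)^k⌋ - c := by
    intro x
    have : (x - (z + (M:ℝ)^k * c))/(M:ℝ)^k = (x-z)/(M:ℝ)^k - c := by
      field_simp; ring
    rw [this, Int.floor_sub_intCast]
  unfold NN
  rw [e1, e1]
  push_cast
  rw [sub_sub_sub_cancel_right]

lemma NN_comm (M : ℕ) (k : ℤ) (z x y : ℝ) : NN M k z x y = NN M k z y x := abs_sub_comm _ _

lemma NN_of_le {M : ℕ} (hM : 1 ≤ M) (k : ℤ) (z : ℝ) {x y : ℝ} (h : x ≤ y) :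
    NN M k z x y = (⌊(y-z)/(M:ℝ)^k⌋:ℝ) - ⌊(x-z)/(M:ℝ)^k⌋ := by
  have hL := zpow_posM hM k
  unfold NN
  rw [abs_sub_comm, abs_of_nonneg]
  rw [sub_nonneg]
  have : ⌊(x-z)/(M:ℝ)^k⌋ ≤ ⌊(y-z)/(M:ℝ)^k⌋ := Int.floor_mono (by gcongr)
  exact_mod_cast this

lemma hermite {M : ℕ} (hM : 1 ≤ M) (A : ℤ) : ∑ a ∈ Finset.range M, (A + a) / (M:ℤ) = A := by
  have hM0 : (M:ℤ) ≠ 0 := by positivity
  have step : ∀ A : ℤ, ∑ a ∈ Finset.range M, (A + 1 + a) / (M:ℤ)
      = ∑ a ∈ Finset.range M, (A + a) / (M:ℤ) + 1 := by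
    intro A
    have h1 := Finset.sum_range_succ (fun a : ℕ => (A + a) / (M:ℤ)) M
    have h2 := Finset.sum_range_succ' (fun a : ℕ => (A + a) / (M:ℤ)) M
    have h3 : ∑ a ∈ Finset.range M, (A + 1 + a) / (M:ℤ)
        = ∑ a ∈ Finset.range M, (A + ((a+1:ℕ):ℤ)) / (M:ℤ) := by
      refine Finset.sum_congr rfl (fun a _ => ?_)
      congr 1; push_cast; ring
    have h4 : (A + M) / (M:ℤ) = A / (M:ℤ) + 1 := Int.add_ediv_of_dvd_right (dvd_refl _) |>.trans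
      (by rw [Int.ediv_self hM0])
    simp only [Nat.cast_zero, add_zero] at h2
    linarith
  have h0 : ∑ a ∈ Finset.range M, ((0:ℤ) + a) / (M:ℤ) = 0 := by
    refine Finset.sum_eq_zero (fun a ha => ?_)
    have : (a:ℤ) < M := by exact_mod_cast Finset.mem_range.1 ha
    rw [zero_add]
    exact Int.ediv_eq_zero_of_lt (by positivity) this
  induction A using Int.induction_on with
  | zero => exact h0
  | succ i ih => rw [step, ih]
  | pred i ih =>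
    have := step (-(i:ℤ) - 1)
    rw [sub_add_cancel, ih] at this
    linarith

/-- averaging over the digit -/
lemma NN_avg {M : ℕ} (hM : 1 ≤ M) (n : ℕ) (z : ℝ) {x y : ℝ} (h : x ≤ y) :
    ∑ a ∈ Finset.range M, NN M ((n+1:ℕ):ℤ) (z - (M:ℝ)^n * (a:ℕ)) x y = NN M (n:ℤ) z x y := by
  have hM0 : (M:ℝ) ≠ 0 := by positivity
  have hL : 0 < (M:ℝ)^n := by positivity
  have e : ∀ (x : ℝ) (a : ℕ), ⌊(x - (z - (M:ℝ)^n * (a:ℕ)))/(M:ℝ)^((n+1:ℕ):ℤ)⌋
      = (⌊(x-z)/(M:ℝ)^(n:ℤ)⌋ + a) / (M:ℤ) := by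
    intro x a
    have : (x - (z - (M:ℝ)^n * (a:ℕ)))/(M:ℝ)^((n+1:ℕ):ℤ)
        = ((x-z)/(M:ℝ)^(n:ℤ) + ((a:ℤ):ℝ)) / (M:ℕ) := by
      rw [zpow_natCast, zpow_natCast, pow_succ]
      push_cast
      field_simp; ring
    rw [this, Int.floor_div_natCast, Int.floor_add_intCast]
  have e2 : ∀ x : ℝ, ∑ a ∈ Finset.range M,
      ((⌊(x - (z - (M:ℝ)^n * (a:ℕ)))/(M:ℝ)^((n+1:ℕ):ℤ)⌋ : ℤ) : ℝ) = (⌊(x-z)/(M:ℝ)^(n:ℤ)⌋ : ℝ) := by
    intro x
    rw [← Int.cast_sum]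
    congr 1
    simp_rw [e]
    exact hermite hM _
  rw [NN_of_le hM _ _ h]
  simp_rw [NN_of_le hM _ _ h]
  rw [Finset.sum_sub_distrib, e2, e2]

lemma measurable_NN (M : ℕ) (k : ℤ) :
    Measurable (fun p : ℝ × (ℝ × ℝ) => NN M k p.1 p.2.1 p.2.2) := by
  have h3 : Measurable (fun n : ℤ => (n:ℝ)) := measurable_from_top
  unfold NN
  refine Measurable.abs (Measurable.sub ?_ ?_)
  · exact h3.comp (Int.measurable_floor.comp
      (((measurable_fst.comp measurable_snd).sub measurable_fst).div_const _))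
  · exact h3.comp (Int.measurable_floor.comp
      (((measurable_snd.comp measurable_snd).sub measurable_fst).div_const _))

/-- the law of the grid: base case, levels `≤ 0` -/
lemma base_lint {K : ℕ} {x y : ℝ} (h : x ≤ y) :
    ∫⁻ u, ENNReal.ofReal ((⌊(y + Int.fract u) * K⌋ : ℝ) - ⌊(x + Int.fract u) * K⌋) ∂leb
      = ENNReal.ofReal ((y - x) * K) := by
  have h0 : ∫⁻ u, ENNReal.ofReal ((⌊(y + Int.fract u) * K⌋ : ℝ) - ⌊(x + Int.fract u) * K⌋) ∂leb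
      = ∫⁻ u, ENNReal.ofReal ((⌊(y + u) * K⌋ : ℝ) - ⌊(x + u) * K⌋) ∂leb := by
    rw [leb_eq]
    refine setLIntegral_congr_fun measurableSet_Ico (fun u hu => ?_)
    simp only [Int.fract_eq_self.2 hu]
  rw [h0]
  set f : ℝ → ℝ := fun u => Int.fract (u * K) with hf
  have hfm : Measurable f := (measurable_id.mul_const _).fract
  have hfb : ∀ (d : ℝ), Integrable (fun u => f (d + u)) leb := by
    intro d
    refine Integrable.of_bound (hfm.comp (measurable_const_add d)).aestronglyMeasurable 1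
      (ae_of_all _ (fun u => ?_))
    rw [Real.norm_eq_abs, abs_of_nonneg (Int.fract_nonneg _)]
    exact (Int.fract_lt_one _).le
  have hg : ∀ u : ℝ, ((⌊(y + u) * K⌋ : ℝ) - ⌊(x + u) * K⌋) = (y - x) * K - (f (y+u) - f (x+u)) := by
    intro u
    simp only [hf, Int.fract]; ring
  have hper : Function.Periodic f 1 := by
    intro u
    simp only [hf]
    have : (u + 1) * (K:ℝ) = u * K + ((K:ℤ):ℝ) := by push_cast; ring
    rw [this, Int.fract_add_intCast]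
  have hint : ∀ d : ℝ, ∫ u, f (d + u) ∂leb = ∫ u in (0:ℝ)..1, f u := by
    intro d
    rw [leb, integral_Icc_eq_integral_Ioc, ← intervalIntegral.integral_of_le zero_le_one,
      intervalIntegral.integral_comp_add_left, add_zero]
    have := hper.intervalIntegral_add_eq d 0
    rwa [zero_add] at this
  have hI : Integrable (fun u : ℝ => ((⌊(y + u) * K⌋ : ℝ) - ⌊(x + u) * K⌋)) leb := by
    simp_rw [hg]
    exact (integrable_const _).sub ((hfb y).sub (hfb x))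
  have hnn : 0 ≤ᵐ[leb] (fun u : ℝ => ((⌊(y + u) * K⌋ : ℝ) - ⌊(x + u) * K⌋)) := by
    refine ae_of_all _ (fun u => ?_)
    simp only [Pi.zero_apply, sub_nonneg]
    have : ⌊(x + u) * K⌋ ≤ ⌊(y + u) * K⌋ := Int.floor_mono (by gcongr)
    exact_mod_cast this
  rw [← ofReal_integral_eq_lintegral_ofReal hI hnn]
  congr 1
  simp_rw [hg]
  have hsub : Integrable (fun u => f (y+u) - f (x+u)) leb := (hfb y).sub (hfb x)
  rw [integral_sub (integrable_const _) hsub, integral_sub (hfb y) (hfb x),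
    hint, hint, integral_const]
  simp

/-- the product measure of the grid parameters -/
noncomputable abbrev nu : Measure (ℕ → ℝ) := Measure.infinitePi (fun _ : ℕ => leb)

lemma NN_nonneg (M : ℕ) (k : ℤ) (z x y : ℝ) : 0 ≤ NN M k z x y := abs_nonneg _

section
attribute [local irreducible] NN bb

lemma measurable_NN_bb (M : ℕ) (k : ℤ) (m : ℕ) (x y : ℝ) :
    Measurable (fun v : ℕ → ℝ => ENNReal.ofReal (NN M k (bb M m v) x y)) := by
  have h1 : Measurable (fun v : ℕ → ℝ => (bb M m v, (x, y))) :=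
    (measurable_bb M m).prodMk measurable_const
  exact ENNReal.measurable_ofReal.comp ((measurable_NN M k).comp h1)

end

lemma E_base {M : ℕ} (hM : 1 ≤ M) (j : ℕ) {x y : ℝ} (h : x ≤ y) :
    ∫⁻ v, ENNReal.ofReal (NN M (-(j:ℤ)) (bb M 0 v) x y) ∂nu
      = ENNReal.ofReal ((y-x)/(M:ℝ)^(-(j:ℤ))) := by
  have e : ∀ (x : ℝ), x / (M:ℝ)^(-(j:ℤ)) = x * ((M^j : ℕ) : ℝ) := by
    intro x
    rw [zpow_neg, div_inv_eq_mul, zpow_natCast]; push_cast; rfl
  have h1 : ∀ v : ℕ → ℝ, ENNReal.ofReal (NN M (-(j:ℤ)) (bb M 0 v) x y)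
      = (fun u : ℝ => ENNReal.ofReal ((⌊(y + Int.fract u) * ((M^j : ℕ) : ℝ)⌋ : ℝ)
        - ⌊(x + Int.fract u) * ((M^j : ℕ) : ℝ)⌋)) (v 0) := by
    intro v
    rw [NN_of_le hM _ _ h]
    simp only [bb, sub_neg_eq_add, e]
  simp_rw [h1]
  have hm : Measurable (fun u : ℝ => ENNReal.ofReal ((⌊(y + Int.fract u) * ((M^j : ℕ) : ℝ)⌋ : ℝ)
        - ⌊(x + Int.fract u) * ((M^j : ℕ) : ℝ)⌋)) := by
    have h3 : Measurable (fun n : ℤ => (n:ℝ)) := measurable_from_top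
    have h4 : ∀ x : ℝ, Measurable (fun u : ℝ => (⌊(x + Int.fract u) * ((M^j : ℕ) : ℝ)⌋ : ℝ)) :=
      fun x => h3.comp (Int.measurable_floor.comp
        ((measurable_id.fract.const_add x).mul_const _))
    exact ENNReal.measurable_ofReal.comp ((h4 y).sub (h4 x))
  rw [e, ← base_lint h]
  exact (measurePreserving_eval_infinitePi (fun _ : ℕ => leb) 0).lintegral_comp hm

lemma leb_digit {M : ℕ} (hM : 1 ≤ M) {a : ℕ} (ha : a < M) :
    leb {u | idx M (fun i => (i:ℝ)) u = a} = ENNReal.ofReal (1 / M) := by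
  have hmono : Monotone (fun i : ℕ => (i:ℝ)) := Nat.mono_cast
  have hMp : (0:ℝ) < M := by positivity
  rw [leb_idx hmono (by simp) hMp ha]
  congr 1; push_cast; ring

lemma E_nat {M : ℕ} (hM : 1 ≤ M) (n : ℕ) {x y : ℝ} (h : x ≤ y) :
    ∫⁻ v, ENNReal.ofReal (NN M (n:ℤ) (bb M n v) x y) ∂nu
      = ENNReal.ofReal ((y-x)/(M:ℝ)^(n:ℤ)) := by
  induction n with
  | zero => simpa using E_base hM 0 h
  | succ n ih =>
    rw [lintegral_update (n+1) _ (measurable_NN_bb M _ _ x y)]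
    have h1 : ∀ v : ℕ → ℝ, ∫⁻ u, ENNReal.ofReal
        (NN M ((n+1:ℕ):ℤ) (bb M (n+1) (Function.update v (n+1) u)) x y) ∂leb
        = ENNReal.ofReal (1/M) * ENNReal.ofReal (NN M (n:ℤ) (bb M n v) x y) := by
      intro v
      simp only [bb]
      simp_rw [bb_update n v (n+1) _ (Nat.lt_succ_self n), Function.update_self]
      rw [lintegral_idx hM (fun i => (i:ℝ))
        (fun a => ENNReal.ofReal (NN M ((n+1:ℕ):ℤ) (bb M n v - (M:ℝ)^n * (a:ℕ)) x y))]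
      rw [← NN_avg hM n (bb M n v) h, ENNReal.ofReal_sum_of_nonneg (fun i _ => NN_nonneg _ _ _ _ _),
        Finset.mul_sum]
      refine Finset.sum_congr rfl (fun a ha => ?_)
      rw [leb_digit hM (Finset.mem_range.1 ha)]
    simp_rw [h1]
    rw [lintegral_const_mul _ (measurable_NN_bb M _ _ x y), ih,
      ← ENNReal.ofReal_mul (by positivity)]
    congr 1
    rw [zpow_natCast, zpow_natCast, pow_succ]
    have hMp : (0:ℝ) < M := by positivity
    field_simp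

lemma E_NN_le {M : ℕ} (hM : 1 ≤ M) (k : ℤ) (m : ℕ) (hkm : k ≤ m) {x y : ℝ} (h : x ≤ y) :
    ∫⁻ v, ENNReal.ofReal (NN M k (bb M m v) x y) ∂nu = ENNReal.ofReal ((y-x)/(M:ℝ)^k) := by
  have hM0 : (M:ℝ) ≠ 0 := by positivity
  rcases Int.eq_nat_or_neg k with ⟨n, rfl | rfl⟩
  · rw [← E_nat hM n h]
    refine lintegral_congr (fun v => ?_)
    have hnm : n ≤ m := by exact_mod_cast hkm
    obtain ⟨c, hc⟩ := bb_cong (M := M) n v (m - n)
    rw [Nat.add_sub_cancel' hnm] at hc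
    rw [hc, ← zpow_natCast (M:ℝ) n, NN_shift hM]
  · rw [← E_base hM n h]
    refine lintegral_congr (fun v => ?_)
    obtain ⟨c, hc⟩ := bb_cong (M := M) 0 v m
    rw [zero_add] at hc
    have e : (M:ℝ)^0 * (c:ℝ) = (M:ℝ)^(-(n:ℤ)) * (((M^n : ℕ) * c : ℤ) : ℝ) := by
      push_cast
      rw [← mul_assoc, ← zpow_natCast (M:ℝ) n, ← zpow_add₀ hM0]; simp
    rw [hc, e, NN_shift hM]

lemma E_NN {M : ℕ} (hM : 1 ≤ M) (k : ℤ) (m : ℕ) (hkm : k ≤ m) (x y : ℝ) :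
    ∫⁻ v, ENNReal.ofReal (NN M k (bb M m v) x y) ∂nu = ENNReal.ofReal (|x-y|/(M:ℝ)^k) := by
  rcases le_total x y with h | h
  · rw [E_NN_le hM k m hkm h, abs_sub_comm, abs_of_nonneg (sub_nonneg.2 h)]
  · simp_rw [NN_comm M k _ x y]
    rw [E_NN_le hM k m hkm h, abs_of_nonneg (sub_nonneg.2 h)]

lemma HH_le1 {M : ℕ} (hM : 1 ≤ M) (k : ℤ) (z x y : ℝ) : HH M k z x y ≤ 4*M := by
  unfold HH
  split_ifs with h
  · have hM0 : (M:ℝ) ≠ 0 := by positivity
    have e : ∀ w : ℝ, ⌊w/(M:ℝ)^(k+1)⌋ = ⌊w/(M:ℝ)^k⌋ / (M:ℤ) := by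
      intro w
      rw [zpow_add_one₀ hM0, ← div_div, Int.floor_div_natCast]
    rw [e, e] at h
    have hMz : (0:ℤ) < M := by exact_mod_cast hM
    have h1 := Int.emod_add_mul_ediv ⌊(x-z)/(M:ℝ)^k⌋ M
    have h2 := Int.emod_add_mul_ediv ⌊(y-z)/(M:ℝ)^k⌋ M
    have h3 := Int.emod_nonneg ⌊(x-z)/(M:ℝ)^k⌋ hMz.ne'
    have h4 := Int.emod_nonneg ⌊(y-z)/(M:ℝ)^k⌋ hMz.ne'
    have h5 := Int.emod_lt_of_pos ⌊(x-z)/(M:ℝ)^k⌋ hMz
    have h6 := Int.emod_lt_of_pos ⌊(y-z)/(M:ℝ)^k⌋ hMz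
    have h7 : |⌊(x-z)/(M:ℝ)^k⌋ - ⌊(y-z)/(M:ℝ)^k⌋| ≤ M := by
      rw [abs_le]; rw [h] at h1; constructor <;> linarith
    have h8 : NN M k z x y ≤ M := by
      unfold NN
      have : (((|⌊(x-z)/(M:ℝ)^k⌋ - ⌊(y-z)/(M:ℝ)^k⌋| : ℤ)) : ℝ) ≤ ((M:ℤ):ℝ) := by exact_mod_cast h7
      simpa using this
    calc ENNReal.ofReal (NN M k z x y) ≤ ENNReal.ofReal (M:ℝ) := ENNReal.ofReal_le_ofReal h8
      _ = 1 * (M:ℝ≥0∞) := by simp
      _ ≤ 4 * M := by gcongr; norm_num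
  · exact le_rfl

lemma HH_le2 {M : ℕ} (k : ℤ) (z x y : ℝ) :
    HH M k z x y ≤ 4*M*ENNReal.ofReal (NN M (k+1) z x y) + ENNReal.ofReal (NN M k z x y) := by
  unfold HH
  split_ifs with h
  · exact le_add_left le_rfl
  · refine le_add_right ?_
    have h1 : 1 ≤ NN M (k+1) z x y := by
      unfold NN
      have : (1:ℤ) ≤ |⌊(x-z)/(M:ℝ)^(k+1)⌋ - ⌊(y-z)/(M:ℝ)^(k+1)⌋| :=
        Int.one_le_abs (sub_ne_zero.2 h)
      have h2 : ((1:ℤ):ℝ) ≤ ((|⌊(x-z)/(M:ℝ)^(k+1)⌋ - ⌊(y-z)/(M:ℝ)^(k+1)⌋| : ℤ) : ℝ) := by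
        exact_mod_cast this
      simpa using h2
    calc (4*M : ℝ≥0∞) = 4*M*1 := by rw [mul_one]
      _ ≤ _ := by
        gcongr
        rw [← ENNReal.ofReal_one]
        exact ENNReal.ofReal_le_ofReal h1

lemma E_HH {M : ℕ} (hM : 1 ≤ M) (k : ℤ) (m : ℕ) (hkm : k + 1 ≤ m) (x y : ℝ) :
    ∫⁻ v, HH M k (bb M m v) x y ∂nu ≤ min (4*(M:ℝ≥0∞)) (ENNReal.ofReal (5*|x-y|/(M:ℝ)^k)) := by
  refine le_min ?_ ?_
  · calc _ ≤ ∫⁻ _ : ℕ → ℝ, (4*M : ℝ≥0∞) ∂nu := lintegral_mono (fun v => HH_le1 hM k _ x y)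
      _ = 4*M := by simp
  · calc _ ≤ ∫⁻ v, (4*M*ENNReal.ofReal (NN M (k+1) (bb M m v) x y)
            + ENNReal.ofReal (NN M k (bb M m v) x y)) ∂nu :=
          lintegral_mono (fun v => HH_le2 k _ x y)
      _ = 4*M*ENNReal.ofReal (|x-y|/(M:ℝ)^(k+1)) + ENNReal.ofReal (|x-y|/(M:ℝ)^k) := by
          rw [lintegral_add_left ((measurable_NN_bb M _ _ x y).const_mul _),
            lintegral_const_mul _ (measurable_NN_bb M _ _ x y), E_NN hM (k+1) m hkm,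
            E_NN hM k m (by omega)]
      _ = ENNReal.ofReal (5*|x-y|/(M:ℝ)^k) := by
          have hL := zpow_posM hM k
          have hM0 : (M:ℝ) ≠ 0 := by positivity
          have e : (4*M : ℝ≥0∞) = ENNReal.ofReal (4*M) := by
            rw [ENNReal.ofReal_mul (by norm_num)]; simp
          rw [e, ← ENNReal.ofReal_mul (by positivity), ← ENNReal.ofReal_add (by positivity)
            (by positivity)]
          congr 1
          rw [zpow_add_one₀ hM0]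
          field_simp; ring

/-- for almost every grid the spine exhausts the line -/
lemma ae_good {M : ℕ} (hM : 2 ≤ M) : ∀ᵐ v ∂nu, ∀ C : ℕ, ∃ n : ℕ,
    Icc (-(C:ℝ)) C ⊆ Ico (bb M n v) (bb M n v + (M:ℝ)^n) := by
  have hM1 : 1 ≤ M := by omega
  rw [ae_all_iff]
  intro C
  rw [ae_iff]
  have hle : ∀ n : ℕ, nu {v | ¬ ∃ n : ℕ, Icc (-(C:ℝ)) C ⊆ Ico (bb M n v) (bb M n v + (M:ℝ)^n)}
      ≤ ENNReal.ofReal (2*C*(1/(M:ℝ))^n) := by
    intro n
    have hCC : (-(C:ℝ)) ≤ C := by have : (0:ℝ) ≤ C := Nat.cast_nonneg _; linarith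
    have hL : 0 < (M:ℝ)^n := by positivity
    calc _ ≤ nu {v | 1 ≤ ENNReal.ofReal (NN M (n:ℤ) (bb M n v) (-(C:ℝ)) C)} := by
          refine measure_mono (fun v hv => ?_)
          simp only [mem_ofPred_eq] at hv ⊢
          by_contra hc
          apply hv
          refine ⟨n, ?_⟩
          rw [not_le, ← ENNReal.ofReal_one, ENNReal.ofReal_lt_ofReal_iff one_pos,
            NN_of_le hM1 _ _ hCC, zpow_natCast] at hc
          obtain ⟨hb1, hb2⟩ := bb_range hM1 n v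
          have hC0 : (0:ℝ) ≤ C := Nat.cast_nonneg _
          have hZ : ⌊(0 - bb M n v)/(M:ℝ)^n⌋ = 0 := by
            rw [Int.floor_eq_zero_iff]
            exact ⟨div_nonneg (by linarith) hL.le, (div_lt_one hL).2 (by linarith)⟩
          have hA : ⌊(-(C:ℝ) - bb M n v)/(M:ℝ)^n⌋ ≤ ⌊(0 - bb M n v)/(M:ℝ)^n⌋ :=
            Int.floor_mono (by gcongr; linarith)
          have hB : ⌊(0 - bb M n v)/(M:ℝ)^n⌋ ≤ ⌊((C:ℝ) - bb M n v)/(M:ℝ)^n⌋ :=
            Int.floor_mono (by gcongr)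
          have hlt : ⌊((C:ℝ) - bb M n v)/(M:ℝ)^n⌋ - ⌊(-(C:ℝ) - bb M n v)/(M:ℝ)^n⌋ < 1 := by
            exact_mod_cast hc
          have hA0 : ⌊(-(C:ℝ) - bb M n v)/(M:ℝ)^n⌋ = 0 := by omega
          have hB0 : ⌊((C:ℝ) - bb M n v)/(M:ℝ)^n⌋ = 0 := by omega
          rw [Int.floor_eq_zero_iff] at hA0 hB0
          have h1 : 0 ≤ -(C:ℝ) - bb M n v := by
            by_contra hcc
            push Not at hcc
            exact absurd hA0.1 (not_le.2 (div_neg_of_neg_of_pos hcc hL))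
          have h2 := (div_lt_one hL).1 hB0.2
          intro w hw
          exact ⟨by linarith [hw.1], by linarith [hw.2]⟩
      _ ≤ ∫⁻ v, ENNReal.ofReal (NN M (n:ℤ) (bb M n v) (-(C:ℝ)) C) ∂nu := by
          have := mul_meas_ge_le_lintegral (μ := nu) (measurable_NN_bb M n n (-(C:ℝ)) C) 1
          rwa [one_mul] at this
      _ = ENNReal.ofReal (2*C*(1/(M:ℝ))^n) := by
          rw [E_nat hM1 n hCC]
          congr 1
          rw [zpow_natCast, one_div, inv_pow]; field_simp; ring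
  have hlim : Tendsto (fun n : ℕ => ENNReal.ofReal (2*C*(1/(M:ℝ))^n)) atTop (𝓝 0) := by
    rw [← ENNReal.ofReal_zero]
    refine ENNReal.tendsto_ofReal ?_
    have hr : (1/(M:ℝ)) < 1 := by
      rw [div_lt_one (by positivity)]; exact_mod_cast hM
    have := (tendsto_pow_atTop_nhds_zero_of_lt_one (by positivity) hr).const_mul (2*(C:ℝ))
    simpa using this
  exact le_antisymm (ge_of_tendsto' hlim hle) bot_le

end Pool.Agent.U924.PC
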