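import Mathlib
import Pool.Agent.R972.PC.Defs
import Pool.Agent.U924.Pc.Idx
import Pool.Agent.U924.Pc.Pos
import Pool.Agent.U924.Pc.Cost
import Pool.Agent.U924.Pc.PsiB
import Pool.Agent.U924.Pc.Grid

set_option autoImplicit false

open MeasureTheory Set Filter Topology
open scoped NNReal ENNReal

namespace Pool.Agent.U924.PC
open Pool.Agent.R972.PC (leb)

/-- the product measure of the choices -/
noncomputable abbrev mu : Measure (ℤ → ℝ) := Measure.infinitePi (fun _ : ℤ => leb)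

/-- the `n`-th approximation -/
noncomputable def Y (M : ℕ) (P : Measure ℝ) (n : ℕ) (v : ℕ → ℝ) (ω : ℤ → ℝ) : ℝ :=
  pos M P (2*n) (n:ℤ) (bb M n v) ω

/-- spine cell -/
def Sp (M : ℕ) (n : ℕ) (v : ℕ → ℝ) : Set ℝ := Ico (bb M n v) (bb M n v + (M:ℝ)^n)

def Good (M : ℕ) (v : ℕ → ℝ) : Prop := ∀ C : ℕ, ∃ n : ℕ,
    Icc (-(C:ℝ)) C ⊆ Ico (bb M n v) (bb M n v + (M:ℝ)^n)

lemma Sp_mono {M : ℕ} (hM : 1 ≤ M) (v : ℕ → ℝ) : Monotone (fun n => Sp M n v) := by
  refine monotone_nat_of_le_succ (fun n => ?_)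
  simp only [Sp, bb]
  have hi : ((idx M (fun i => (i:ℝ)) (v (n+1)) : ℕ) : ℝ) + 1 ≤ M := by
    exact_mod_cast idx_lt hM (fun i => (i:ℝ)) (v (n+1))
  have hi0 : (0:ℝ) ≤ ((idx M (fun i => (i:ℝ)) (v (n+1)) : ℕ) : ℝ) := Nat.cast_nonneg _
  have hp : 0 < (M:ℝ)^n := by positivity
  refine Ico_subset_Ico ?_ ?_
  · nlinarith
  · rw [pow_succ]; nlinarith

lemma Sp_union {M : ℕ} {v : ℕ → ℝ} (hv : Good M v) : (⋃ n, Sp M n v) = univ := by
  rw [eq_univ_iff_forall]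
  intro x
  obtain ⟨C, hC⟩ := exists_nat_ge |x|
  obtain ⟨n, hn⟩ := hv C
  exact mem_iUnion.2 ⟨n, hn (abs_le.1 hC)⟩

lemma Sp_tendsto {M : ℕ} (hM : 1 ≤ M) {v : ℕ → ℝ} (hv : Good M v) (P : Measure ℝ)
    [IsProbabilityMeasure P] : Tendsto (fun n => P (Sp M n v)) atTop (𝓝 1) := by
  have := tendsto_measure_iUnion_atTop (μ := P) (Sp_mono hM v)
  rwa [Sp_union hv, measure_univ] at this

lemma Sp_eventually {M : ℕ} (hM : 1 ≤ M) {v : ℕ → ℝ} (hv : Good M v) (x : ℝ) :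
    ∀ᶠ n in atTop, x ∈ Sp M n v := by
  have : x ∈ ⋃ n, Sp M n v := by rw [Sp_union hv]; trivial
  obtain ⟨n, hn⟩ := mem_iUnion.1 this
  exact eventually_atTop.2 ⟨n, fun m hm => Sp_mono hM v hm hn⟩

/-- exit probability from the spine -/
lemma exit_prob {M : ℕ} (hM : 1 ≤ M) (P : Measure ℝ) [IsProbabilityMeasure P] (n : ℕ)
    (v : ℕ → ℝ) :
    P (Sp M (n+1) v) * mu {ω | idx M (Fc P ((M:ℝ)^(n:ℤ)) (bb M (n+1) v)) (ω n)
      ≠ idx M (fun i => (i:ℝ)) (v (n+1))} = P (Sp M (n+1) v) - P (Sp M n v) := by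
  set a := idx M (fun i => (i:ℝ)) (v (n+1)) with ha
  have haM : a < M := idx_lt hM _ _
  set F := Fc P ((M:ℝ)^(n:ℤ)) (bb M (n+1) v) with hF
  have hms : MeasurableSet {u | idx M F u = a} := (measurable_idx M F) (measurableSet_singleton a)
  have h1 : mu {ω | idx M F (ω n) ≠ a} = leb {u | idx M F u ≠ a} := by
    have := (measurePreserving_eval_infinitePi (fun _ : ℤ => leb) (n:ℤ)).measure_preimage
      (s := {u | idx M F u ≠ a}) hms.compl.nullMeasurableSet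
    exact this
  have h2 : leb {u | idx M F u ≠ a} = 1 - leb {u | idx M F u = a} := by
    have := prob_compl_eq_one_sub (μ := leb) hms
    exact this
  have h3 := mass_idx P hM ((n+1:ℕ):ℤ) (bb M (n+1) v) haM
  have e1 : (((n+1:ℕ):ℤ) - 1) = (n:ℤ) := by push_cast; ring
  rw [e1, ← hF, zpow_natCast, zpow_natCast] at h3
  have e2 : bb M (n+1) v + (M:ℝ)^n * (a:ℕ) = bb M n v := by
    simp only [bb]; rw [← ha]; ring
  rw [e2] at h3
  rw [h1, h2, ENNReal.mul_sub (fun _ _ => measure_ne_top _ _), mul_one]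
  unfold Sp
  rw [h3]

lemma exit_summable {M : ℕ} (hM : 1 ≤ M) (P : Measure ℝ) [IsProbabilityMeasure P]
    {v : ℕ → ℝ} (hv : Good M v) :
    ∀ᵐ ω ∂mu, ∀ᶠ n : ℕ in atTop, idx M (Fc P ((M:ℝ)^(n:ℤ)) (bb M (n+1) v)) (ω n)
      = idx M (fun i => (i:ℝ)) (v (n+1)) := by
  obtain ⟨n0, hn0⟩ := eventually_atTop.1
    ((Sp_tendsto hM hv P).eventually (lt_mem_nhds (show (2⁻¹:ℝ≥0∞) < 1 by
      exact ENNReal.inv_lt_one.2 (by norm_num))))
  set s : ℕ → Set (ℤ → ℝ) := fun n => {ω | idx M (Fc P ((M:ℝ)^(n:ℤ)) (bb M (n+1) v)) (ω n)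
      ≠ idx M (fun i => (i:ℝ)) (v (n+1))} with hs
  have hmono : ∀ n, P (Sp M n v) ≤ P (Sp M (n+1) v) := fun n =>
    measure_mono (Sp_mono hM v (Nat.le_succ n))
  have hle : ∀ n : ℕ, mu (s (n+n0)) ≤ 2 * (P (Sp M (n+n0+1) v) - P (Sp M (n+n0) v)) := by
    intro n
    rw [← exit_prob hM P (n+n0) v, ← mul_assoc]
    have h1 : (1:ℝ≥0∞) ≤ 2 * P (Sp M (n+n0+1) v) := by
      have := (hn0 (n+n0+1) (by omega)).le
      calc (1:ℝ≥0∞) = 2 * 2⁻¹ := (ENNReal.mul_inv_cancel (by norm_num) (by norm_num)).symm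
        _ ≤ _ := by gcongr
    calc mu (s (n+n0)) = 1 * mu (s (n+n0)) := (one_mul _).symm
      _ ≤ _ := by gcongr
  have hsum : ∑' n : ℕ, mu (s (n+n0)) ≤ 2 := by
    refine (ENNReal.tsum_le_tsum hle).trans ?_
    rw [ENNReal.tsum_mul_left]
    have : ∑' n : ℕ, (P (Sp M (n+n0+1) v) - P (Sp M (n+n0) v)) ≤ 1 := by
      refine ENNReal.tsum_le_of_sum_range_le (fun N => ?_)
      have hN : ∑ i ∈ Finset.range N, (P (Sp M (i+n0+1) v) - P (Sp M (i+n0) v))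
          + P (Sp M n0 v) = P (Sp M (N+n0) v) := by
        induction N with
        | zero => simp
        | succ N ih =>
          rw [Finset.sum_range_succ, add_right_comm, ih, add_tsub_cancel_of_le (hmono _),
            show N + n0 + 1 = N + 1 + n0 by omega]
      calc _ ≤ _ := le_add_right le_rfl
        _ = _ := hN
        _ ≤ 1 := prob_le_one
    calc 2 * _ ≤ 2 * (1:ℝ≥0∞) := by gcongr
      _ = 2 := mul_one _
  have hbc := ae_eventually_notMem (μ := mu) (s := fun n => s (n+n0))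
    (ne_top_of_le_ne_top (by norm_num) hsum)
  filter_upwards [hbc] with ω hω
  rw [← map_add_atTop_eq_nat n0, eventually_map]
  filter_upwards [hω] with n hn
  by_contra h
  exact hn h

lemma ae_conv {M : ℕ} (hM : 2 ≤ M) (P : Measure ℝ) [IsProbabilityMeasure P]
    {v : ℕ → ℝ} (hv : Good M v) :
    ∀ᵐ ω ∂mu, ∃ l, Tendsto (fun n => Y M P n v ω) atTop (𝓝 l) := by
  have hM1 : 1 ≤ M := by omega
  filter_upwards [exit_summable hM1 P hv] with ω hω
  have hstep : ∀ᶠ n : ℕ in atTop, ‖Y M P (n+1) v ω - Y M P n v ω‖ ≤ (1/2:ℝ)^n := by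
    filter_upwards [hω] with n hn
    have e : Y M P (n+1) v ω = pos M P (2*n+1) (n:ℤ) (bb M n v) ω := by
      unfold Y
      have h2 : 2*(n+1) = (2*n+1)+1 := by ring
      rw [h2]
      simp only [pos]
      have e1 : (((n+1:ℕ):ℤ) - 1) = (n:ℤ) := by push_cast; ring
      rw [e1, hn]
      congr 1
      simp only [bb, zpow_natCast]; ring
    rw [e, Real.norm_eq_abs]
    unfold Y
    refine (pos_step hM1 P (2*n) (n:ℤ) (bb M n v) ω).trans ?_
    have e3 : ((n:ℤ) - ((2*n:ℕ):ℤ)) = -(n:ℤ) := by push_cast; ring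
    rw [e3, zpow_neg, zpow_natCast, one_div, inv_pow]
    have : (2:ℝ)^n ≤ (M:ℝ)^n := pow_le_pow_left₀ (by norm_num) (by exact_mod_cast hM) n
    exact inv_anti₀ (by positivity) this
  have hsum : Summable (fun n => Y M P (n+1) v ω - Y M P n v ω) :=
    Summable.of_norm_bounded_eventually_nat
      (summable_geometric_of_lt_one (by norm_num) (by norm_num)) hstep
  have hc : CauchySeq (fun n => Y M P n v ω) := by
    refine cauchySeq_of_summable_dist ?_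
    have := hsum.norm
    refine this.congr (fun n => ?_)
    rw [dist_comm, Real.dist_eq, Real.norm_eq_abs]
  exact cauchySeq_tendsto_of_complete hc

lemma measurable_Y {M : ℕ} (hM : 1 ≤ M) (P : Measure ℝ) [IsFiniteMeasure P] (n : ℕ) :
    Measurable (fun p : (ℕ → ℝ) × (ℤ → ℝ) => Y M P n p.1 p.2) := by
  have h1 : Measurable (fun p : (ℕ → ℝ) × (ℤ → ℝ) => (bb M n p.1, p.2)) :=
    ((measurable_bb M n).comp measurable_fst).prodMk measurable_snd
  exact Measurable.comp (g := fun p : ℝ × (ℤ → ℝ) => pos M P (2*n) (n:ℤ) p.1 p.2)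
    (measurable_pos hM P (2*n) (n:ℤ)) h1

/-- the limit random variable -/
noncomputable def XX (M : ℕ) (P : Measure ℝ) (p : (ℕ → ℝ) × (ℤ → ℝ)) : ℝ :=
  limUnder atTop (fun n => Y M P n p.1 p.2)

lemma measurable_XX {M : ℕ} (hM : 1 ≤ M) (P : Measure ℝ) [IsFiniteMeasure P] :
    Measurable (XX M P) :=
  (StronglyMeasurable.limUnder (l := atTop)
    (fun n => (measurable_Y hM P n).stronglyMeasurable)).measurable

lemma ae_tendsto {M : ℕ} (hM : 2 ≤ M) (P : Measure ℝ) [IsProbabilityMeasure P]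
    {v : ℕ → ℝ} (hv : Good M v) :
    ∀ᵐ ω ∂mu, Tendsto (fun n => Y M P n v ω) atTop (𝓝 (XX M P (v, ω))) := by
  filter_upwards [ae_conv hM P hv] with ω hω
  exact tendsto_nhds_limUnder hω

lemma left_tendsto {M : ℕ} (hM : 2 ≤ M) (v : ℕ → ℝ) (x : ℝ) :
    Tendsto (fun n : ℕ => bb M n v + (M:ℝ)^((n:ℤ)-((2*n:ℕ):ℤ))
      * ⌊(x - bb M n v)/(M:ℝ)^((n:ℤ)-((2*n:ℕ):ℤ))⌋) atTop (𝓝 x) := by
  have hM1 : 1 ≤ M := by omega
  rw [tendsto_iff_norm_sub_tendsto_zero]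
  have hlim : Tendsto (fun n : ℕ => (1/2:ℝ)^n) atTop (𝓝 0) :=
    tendsto_pow_atTop_nhds_zero_of_lt_one (by norm_num) (by norm_num)
  refine squeeze_zero (fun n => norm_nonneg _) (fun n => ?_) hlim
  have e3 : ((n:ℤ) - ((2*n:ℕ):ℤ)) = -(n:ℤ) := by push_cast; ring
  rw [e3]
  set L := (M:ℝ)^(-(n:ℤ)) with hL
  have hLp : 0 < L := zpow_posM hM1 _
  have hL2 : L ≤ (1/2)^n := by
    rw [hL, zpow_neg, zpow_natCast, one_div, inv_pow]
    have : (2:ℝ)^n ≤ (M:ℝ)^n := pow_le_pow_left₀ (by norm_num) (by exact_mod_cast hM) n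
    exact inv_anti₀ (by positivity) this
  have h1 := Int.floor_le ((x - bb M n v)/L)
  have h2 := Int.lt_floor_add_one ((x - bb M n v)/L)
  rw [le_div_iff₀ hLp] at h1
  rw [div_lt_iff₀ hLp] at h2
  rw [Real.norm_eq_abs, abs_le]
  constructor <;> nlinarith

lemma law_XX {M : ℕ} (hM : 2 ≤ M) (P : Measure ℝ) [IsProbabilityMeasure P]
    {v : ℕ → ℝ} (hv : Good M v) (f : BoundedContinuousFunction ℝ ℝ≥0) :
    ∫⁻ ω, f (XX M P (v, ω)) ∂mu = ∫⁻ x, f x ∂P := by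
  have hM1 : 1 ≤ M := by omega
  have hfm : Measurable (fun x : ℝ => ((f x : ℝ≥0) : ℝ≥0∞)) :=
    measurable_coe_nnreal_ennreal.comp f.continuous.measurable
  have hfc : Continuous (fun x : ℝ => ((f x : ℝ≥0) : ℝ≥0∞)) :=
    ENNReal.continuous_coe.comp f.continuous
  have hbd : ∀ x, ((f x : ℝ≥0) : ℝ≥0∞) ≤ ((nndist f 0 : ℝ≥0) : ℝ≥0∞) := by
    intro x
    exact_mod_cast BoundedContinuousFunction.NNReal.upper_bound f x
  have hYm : ∀ n, Measurable (fun ω : ℤ → ℝ => Y M P n v ω) := fun n =>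
    (measurable_Y hM1 P n).comp (measurable_const.prodMk measurable_id)
  -- left side
  have h1 : Tendsto (fun n => ∫⁻ ω, f (Y M P n v ω) ∂mu) atTop
      (𝓝 (∫⁻ ω, f (XX M P (v, ω)) ∂mu)) := by
    refine tendsto_lintegral_of_dominated_convergence (fun _ => ((nndist f 0 : ℝ≥0) : ℝ≥0∞))
      (fun n => hfm.comp (hYm n)) (fun n => ae_of_all _ (fun ω => hbd _)) (by simp) ?_
    filter_upwards [ae_tendsto hM P hv] with ω hω
    exact (hfc.tendsto _).comp hω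
  have h2 : Tendsto (fun n => P (Sp M n v) * ∫⁻ ω, f (Y M P n v ω) ∂mu) atTop
      (𝓝 (1 * ∫⁻ ω, f (XX M P (v, ω)) ∂mu)) := by
    refine ENNReal.Tendsto.mul (Sp_tendsto hM1 hv P) (Or.inl one_ne_zero) h1 (Or.inr (by simp))
  rw [one_mul] at h2
  -- right side
  have h3 : ∀ n, P (Sp M n v) * ∫⁻ ω, f (Y M P n v ω) ∂mu
      = ∫⁻ x, (Sp M n v).indicator (fun x => ((f (bb M n v + (M:ℝ)^((n:ℤ)-((2*n:ℕ):ℤ))
        * ⌊(x - bb M n v)/(M:ℝ)^((n:ℤ)-((2*n:ℕ):ℤ))⌋) : ℝ≥0) : ℝ≥0∞)) x ∂P := by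
    intro n
    rw [lintegral_indicator (show MeasurableSet (Sp M n v) from measurableSet_Ico)]
    have := law_pos hM1 P (fun x => ((f x : ℝ≥0) : ℝ≥0∞)) hfm (2*n) (n:ℤ) (bb M n v)
    simpa only [Sp, Y, zpow_natCast] using this
  have h4 : Tendsto (fun n => ∫⁻ x, (Sp M n v).indicator
        (fun x => ((f (bb M n v + (M:ℝ)^((n:ℤ)-((2*n:ℕ):ℤ))
        * ⌊(x - bb M n v)/(M:ℝ)^((n:ℤ)-((2*n:ℕ):ℤ))⌋) : ℝ≥0) : ℝ≥0∞)) x ∂P) atTop
      (𝓝 (∫⁻ x, f x ∂P)) := by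
    refine tendsto_lintegral_of_dominated_convergence (fun _ => ((nndist f 0 : ℝ≥0) : ℝ≥0∞))
      (fun n => ?_) (fun n => ae_of_all _ (fun x => ?_)) (by simp) (ae_of_all _ (fun x => ?_))
    · refine Measurable.indicator ?_ measurableSet_Ico
      refine hfm.comp ?_
      have h3 : Measurable (fun n : ℤ => (n:ℝ)) := measurable_from_top
      exact ((h3.comp (Int.measurable_floor.comp
        ((measurable_id.sub_const _).div_const _))).const_mul _).const_add _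
    · by_cases hx : x ∈ Sp M n v
      · rw [indicator_of_mem hx]; exact hbd _
      · rw [indicator_of_notMem hx]; exact bot_le
    · refine Tendsto.congr' ?_ ((hfc.tendsto x).comp (left_tendsto hM v x))
      filter_upwards [Sp_eventually hM1 hv x] with n hn
      rw [indicator_of_mem hn]; rfl
  exact tendsto_nhds_unique h2 (h4.congr (fun n => (h3 n).symm))

/-- total pointwise cost of a grid -/
noncomputable def WW (M : ℕ) (q : ℝ) (v : ℕ → ℝ) (x y : ℝ) : ℝ≥0∞ :=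
  ∑' k : ℤ, cc M q k * HH M k (bb M (k+1).toNat v) x y

lemma HH_bb {M : ℕ} (hM : 1 ≤ M) (k : ℤ) (n : ℕ) (hkn : k + 1 ≤ n) (v : ℕ → ℝ) (x y : ℝ) :
    HH M k (bb M n v) x y = HH M k (bb M (k+1).toNat v) x y := by
  have hM0 : (M:ℝ) ≠ 0 := by positivity
  have hle : (k+1).toNat ≤ n := by omega
  obtain ⟨c, hc⟩ := bb_cong (M := M) (k+1).toNat v (n - (k+1).toNat)
  rw [Nat.add_sub_cancel' hle] at hc
  rcases le_or_gt 0 (k+1) with h | h
  · have e : (M:ℝ)^((k+1).toNat) = (M:ℝ)^(k+1) := by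
      rw [← zpow_natCast, Int.toNat_of_nonneg h]
    rw [hc, e, HH_shift hM]
  · obtain ⟨m, hm⟩ := Int.eq_ofNat_of_zero_le (show 0 ≤ -(k+1) by omega)
    have h0 : (k+1).toNat = 0 := by omega
    rw [h0] at hc ⊢
    have e : (M:ℝ)^0 * (c:ℝ) = (M:ℝ)^(k+1) * (((M^m : ℕ) * c : ℤ) : ℝ) := by
      push_cast
      have h1 : (M:ℝ)^(k+1) * (M:ℝ)^m = 1 := by
        rw [← zpow_natCast (M:ℝ) m, ← zpow_add₀ hM0, ← hm]; simp
      rw [← mul_assoc, h1, pow_zero]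
    rw [hc, e, HH_shift hM]

lemma Psi_le_WW {M : ℕ} (hM : 1 ≤ M) (q x y : ℝ) (n : ℕ) (v : ℕ → ℝ) :
    Psi M q x y (2*n) (n:ℤ) (bb M n v) ≤ WW M q v x y := by
  refine (Psi_le hM q x y (2*n) (n:ℤ) (bb M n v)).trans ?_
  have h1 : ∑ l ∈ Finset.range (2*n), cc M q ((n:ℤ)-1-l) * HH M ((n:ℤ)-1-l) (bb M n v) x y
      = ∑ l ∈ Finset.range (2*n), (fun k : ℤ => cc M q k * HH M k (bb M (k+1).toNat v) x y)
        ((n:ℤ)-1-l) := by
    refine Finset.sum_congr rfl (fun l _ => ?_)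
    simp only
    rw [HH_bb hM _ n (by omega)]
  rw [h1]
  have hinj : Function.Injective (fun l : ℕ => (n:ℤ)-1-l) := by
    intro a b hab
    simp only at hab
    omega
  refine (ENNReal.sum_le_tsum _).trans ?_
  exact ENNReal.tsum_comp_le_tsum_of_injective hinj _

lemma cost_XX {M : ℕ} (hM : 2 ≤ M) {q : ℝ} (hq : q ≤ 1) (hq0 : 0 < q)
    {P Q : Measure ℝ} [IsProbabilityMeasure P] [IsProbabilityMeasure Q]
    {γ : Measure (ℝ × ℝ)} [IsFiniteMeasure γ]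
    (h1 : γ.map Prod.fst = P) (h2 : γ.map Prod.snd = Q) {v : ℕ → ℝ} (hv : Good M v) :
    ∫⁻ ω, ENNReal.ofReal (|XX M P (v, ω) - XX M Q (v, ω)|^q) ∂mu
      ≤ ∫⁻ p, WW M q v p.1 p.2 ∂γ := by
  have hM1 : 1 ≤ M := by omega
  set F : ℕ → (ℤ → ℝ) → ℝ≥0∞ := fun n ω => min (P (Sp M n v)) (Q (Sp M n v))
    * ENNReal.ofReal (|Y M P n v ω - Y M Q n v ω|^q) with hF
  have hYm : ∀ (P : Measure ℝ) [IsProbabilityMeasure P] n,
      Measurable (fun ω : ℤ → ℝ => Y M P n v ω) := fun P _ n =>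
    (measurable_Y hM1 P n).comp (measurable_const.prodMk measurable_id)
  have hDm : ∀ n, Measurable (fun ω : ℤ → ℝ => ENNReal.ofReal (|Y M P n v ω - Y M Q n v ω|^q)) :=
    fun n => ENNReal.measurable_ofReal.comp (((hYm P n).sub (hYm Q n)).abs.pow_const q)
  have hFm : ∀ n, Measurable (F n) := fun n => (hDm n).const_mul _
  have hlim : ∀ᵐ ω ∂mu, liminf (fun n => F n ω) atTop
      = ENNReal.ofReal (|XX M P (v, ω) - XX M Q (v, ω)|^q) := by
    filter_upwards [ae_tendsto hM P hv, ae_tendsto hM Q hv] with ω hP hQ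
    refine Tendsto.liminf_eq ?_
    have hm : Tendsto (fun n => min (P (Sp M n v)) (Q (Sp M n v))) atTop (𝓝 1) := by
      have := (Sp_tendsto hM1 hv P).min (Sp_tendsto hM1 hv Q)
      rwa [min_self] at this
    have hr : Tendsto (fun n => ENNReal.ofReal (|Y M P n v ω - Y M Q n v ω|^q)) atTop
        (𝓝 (ENNReal.ofReal (|XX M P (v, ω) - XX M Q (v, ω)|^q))) := by
      refine ENNReal.tendsto_ofReal ?_
      have habs := (hP.sub hQ).abs
      exact (Real.continuous_rpow_const hq0.le).continuousAt.tendsto.comp habs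
    have := ENNReal.Tendsto.mul hm (Or.inl one_ne_zero) hr (Or.inr (by simp))
    rwa [one_mul] at this
  have hle : ∀ n, ∫⁻ ω, F n ω ∂mu ≤ ∫⁻ p, WW M q v p.1 p.2 ∂γ := by
    intro n
    rw [hF]
    simp only
    rw [lintegral_const_mul _ (hDm n)]
    have := cost_cell hM1 hq hq0 h1 h2 (2*n) (n:ℤ) (bb M n v)
    rw [zpow_natCast] at this
    refine this.trans ?_
    exact lintegral_mono (fun p => Psi_le_WW hM1 q p.1 p.2 n v)
  calc _ = ∫⁻ ω, liminf (fun n => F n ω) atTop ∂mu := (lintegral_congr_ae hlim).symm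
    _ ≤ liminf (fun n => ∫⁻ ω, F n ω ∂mu) atTop := lintegral_liminf_le hFm
    _ ≤ _ := liminf_le_of_frequently_le' (Frequently.of_forall hle)

end Pool.Agent.U924.PC
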