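import Mathlib
import Pool.Agent.R972.PC.Defs
import Pool.Agent.U924.Pc.Idx
import Pool.Agent.U924.Pc.Pos
import Pool.Agent.U924.Pc.Cost

set_option autoImplicit false

open MeasureTheory Set Filter Topology
open scoped NNReal ENNReal

namespace Pool.Agent.U924.PC
open Pool.Agent.R972.PC (leb)

lemma tsum_half (c : ℝ) (hc : 0 ≤ c) :
    ∑' n : ℕ, ENNReal.ofReal (c * (1/2)^n) = ENNReal.ofReal (2*c) := by
  have h1 : ∀ n : ℕ, ENNReal.ofReal (c * (1/2)^n) = ENNReal.ofReal c * (2⁻¹ : ℝ≥0∞)^n := by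
    intro n
    rw [ENNReal.ofReal_mul hc, ENNReal.ofReal_pow (by norm_num)]
    congr 2
    rw [one_div, ENNReal.ofReal_inv_of_pos (by norm_num)]; simp
  simp_rw [h1]
  rw [ENNReal.tsum_mul_left, ENNReal.tsum_geometric, ENNReal.one_sub_inv_two, inv_inv,
    ENNReal.ofReal_mul (by norm_num), mul_comm]
  simp

lemma sum_levels {M : ℕ} (hM : 2 ≤ M) {q : ℝ} (hq0 : 0 < q) (hq1 : q < 1)
    (h1 : (M:ℝ)^(1-q) ≤ 4) (h2 : 2 ≤ (M:ℝ)^(1-q)) (h3 : 2 ≤ (M:ℝ)^q) (r : ℝ) (hr : 0 ≤ r) :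
    ∑' k : ℤ, cc M q k * min (4*(M:ℝ≥0∞)) (ENNReal.ofReal (5*r/(M:ℝ)^k))
      ≤ ENNReal.ofReal (144 * r^q) := by
  rcases hr.eq_or_lt with rfl | hr
  · simp
  have hMp : (0:ℝ) < M := by positivity
  have hM1 : (1:ℝ) < M := by exact_mod_cast hM
  obtain ⟨k0, hk1, hk2⟩ := exists_mem_Ico_zpow hr hM1
  rw [← (Equiv.addLeft k0).tsum_eq]
  simp only [Equiv.coe_addLeft]
  rw [tsum_of_nat_of_neg_add_one ENNReal.summable ENNReal.summable]
  have hup : ∀ n : ℕ, cc M q (k0 + n) * min (4*(M:ℝ≥0∞)) (ENNReal.ofReal (5*r/(M:ℝ)^(k0+(n:ℤ))))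
      ≤ ENNReal.ofReal ((40 * r^q) * (1/2)^n) := by
    intro n
    set A := (M:ℝ)^(k0+(n:ℤ)) with hA
    have hAp : 0 < A := by positivity
    calc _ ≤ cc M q (k0+n) * ENNReal.ofReal (5*r/A) := by
          gcongr; exact min_le_right _ _
      _ = ENNReal.ofReal (2 * A^q * (5*r/A)) := by
          rw [cc, ← ENNReal.ofReal_mul (by positivity)]
      _ ≤ _ := by
          apply ENNReal.ofReal_le_ofReal
          have e1 : A = (M:ℝ)^(k0+1) * ((M:ℝ)^n / M) := by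
            rw [hA, zpow_add₀ hMp.ne', zpow_add_one₀ hMp.ne', zpow_natCast]; field_simp
          have e2 : A^q / A = A^(q-1) := by rw [Real.rpow_sub_one hAp.ne']
          have e3 : A^(q-1) = ((M:ℝ)^(k0+1))^(q-1) * (((M:ℝ)^(q-1))^n * (M:ℝ)^(1-q)) := by
            rw [e1, Real.mul_rpow (by positivity) (by positivity),
              Real.div_rpow (by positivity) (by positivity), ← Real.rpow_natCast (M:ℝ) n,
              ← Real.rpow_mul hMp.le, mul_comm (n:ℝ) (q-1), Real.rpow_mul hMp.le,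
              Real.rpow_natCast, show (1 - q) = -(q-1) by ring, Real.rpow_neg hMp.le]
            rfl
          have e4 : ((M:ℝ)^(k0+1))^(q-1) ≤ r^(q-1) :=
            Real.rpow_le_rpow_of_nonpos hr hk2.le (by linarith)
          have e5 : (M:ℝ)^(q-1) ≤ 1/2 := by
            rw [show (q - 1) = -(1-q) by ring, Real.rpow_neg hMp.le, one_div]
            exact inv_anti₀ (by norm_num) h2
          have e6 : ((M:ℝ)^(q-1))^n ≤ (1/2)^n := pow_le_pow_left₀ (by positivity) e5 n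
          have e7 : r^(q-1) * r = r^q := by
            rw [Real.rpow_sub_one hr.ne']; field_simp
          calc 2 * A^q * (5*r/A) = 10 * r * (A^q/A) := by ring
            _ = 10 * r * (((M:ℝ)^(k0+1))^(q-1) * (((M:ℝ)^(q-1))^n * (M:ℝ)^(1-q))) := by rw [e2, e3]
            _ ≤ 10 * r * (r^(q-1) * ((1/2)^n * 4)) := by gcongr
            _ = 40 * (r^(q-1) * r) * (1/2)^n := by ring
            _ = _ := by rw [e7]
  have hdn : ∀ n : ℕ, cc M q (k0 + -((n:ℤ)+1))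
      * min (4*(M:ℝ≥0∞)) (ENNReal.ofReal (5*r/(M:ℝ)^(k0+ -((n:ℤ)+1))))
      ≤ ENNReal.ofReal ((32 * r^q) * (1/2)^n) := by
    intro n
    set A := (M:ℝ)^(k0+ -((n:ℤ)+1)) with hA
    have hAp : 0 < A := by positivity
    calc _ ≤ cc M q (k0+ -((n:ℤ)+1)) * (4*(M:ℝ≥0∞)) := by
          gcongr; exact min_le_left _ _
      _ = ENNReal.ofReal (2 * A^q * (4*M)) := by
          have e : (4*M : ℝ≥0∞) = ENNReal.ofReal (4*M) := by
            rw [ENNReal.ofReal_mul (by norm_num)]; simp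
          rw [cc, e, ← ENNReal.ofReal_mul (by positivity)]
      _ ≤ _ := by
          apply ENNReal.ofReal_le_ofReal
          have e1 : A = (M:ℝ)^k0 / ((M:ℝ)^n * M) := by
            rw [hA, zpow_add₀ hMp.ne', zpow_neg, zpow_add_one₀ hMp.ne', zpow_natCast]
            rfl
          have e3 : A^q = ((M:ℝ)^k0)^q / (((M:ℝ)^q)^n * (M:ℝ)^q) := by
            rw [e1, Real.div_rpow (by positivity) (by positivity),
              Real.mul_rpow (by positivity) (by positivity), ← Real.rpow_natCast (M:ℝ) n,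
              ← Real.rpow_mul hMp.le, mul_comm (n:ℝ) q, Real.rpow_mul hMp.le, Real.rpow_natCast]
          have e4 : ((M:ℝ)^k0)^q ≤ r^q := Real.rpow_le_rpow (by positivity) hk1 hq0.le
          have e5 : (M:ℝ) = (M:ℝ)^q * (M:ℝ)^(1-q) := by
            rw [← Real.rpow_add hMp]; simp
          have e6 : (2:ℝ)^n ≤ ((M:ℝ)^q)^n := pow_le_pow_left₀ (by norm_num) h3 n
          have hMq : 0 < (M:ℝ)^q := by positivity
          calc 2 * A^q * (4*M) = 8 * (((M:ℝ)^k0)^q / (((M:ℝ)^q)^n * (M:ℝ)^q)) * M := by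
                rw [e3]; ring
            _ = 8 * (((M:ℝ)^k0)^q / (((M:ℝ)^q)^n * (M:ℝ)^q)) * ((M:ℝ)^q * (M:ℝ)^(1-q)) := by
                rw [← e5]
            _ = 8 * ((M:ℝ)^k0)^q * (1/((M:ℝ)^q)^n) * (M:ℝ)^(1-q) := by field_simp
            _ ≤ 8 * r^q * (1/2^n) * 4 := by gcongr
            _ = _ := by rw [one_div_pow]; ring
  calc _ ≤ ∑' n : ℕ, ENNReal.ofReal ((40 * r^q) * (1/2)^n)
        + ∑' n : ℕ, ENNReal.ofReal ((32 * r^q) * (1/2)^n) :=
        add_le_add (ENNReal.tsum_le_tsum hup) (ENNReal.tsum_le_tsum hdn)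
    _ = _ := by
        rw [tsum_half _ (by positivity), tsum_half _ (by positivity),
          ← ENNReal.ofReal_add (by positivity) (by positivity)]
        congr 1; ring

/-- existence of the base `M` -/
lemma exists_base {q : ℝ} (hq : 1/2 ≤ q) (hq1 : q < 1) :
    ∃ M : ℕ, 2 ≤ M ∧ (M:ℝ)^(1-q) ≤ 4 ∧ 2 ≤ (M:ℝ)^(1-q) ∧ 2 ≤ (M:ℝ)^q := by
  have hd : 0 < 1 - q := by linarith
  set m := ⌈1/(1-q)⌉₊ with hm
  have hm1 : 1/(1-q) ≤ m := Nat.le_ceil _
  have hm2 : (m:ℝ) < 1/(1-q) + 1 := Nat.ceil_lt_add_one (by positivity)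
  have hmq : 1 ≤ (m:ℝ) * (1-q) := by rwa [div_le_iff₀ hd] at hm1
  have hmq2 : (m:ℝ) * (1-q) ≤ 2 := by
    have h1 : (m:ℝ) * (1-q) < (1/(1-q)+1)*(1-q) := by gcongr
    have h2 : (1/(1-q)+1)*(1-q) = 1 + (1-q) := by field_simp
    linarith
  have hm0 : 1 ≤ m := by
    have : (0:ℝ) < m := lt_of_lt_of_le (by positivity) hm1
    exact_mod_cast this
  have hcast : (((2^m : ℕ)):ℝ) = (2:ℝ)^(m:ℝ) := by push_cast; rw [Real.rpow_natCast]
  have e : ∀ s : ℝ, (((2^m : ℕ)):ℝ)^s = (2:ℝ)^((m:ℝ)*s) := by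
    intro s; rw [hcast, ← Real.rpow_mul (by norm_num)]
  refine ⟨2^m, ?_, ?_, ?_, ?_⟩
  · calc 2 = 2^1 := by norm_num
      _ ≤ 2^m := Nat.pow_le_pow_right (by norm_num) hm0
  · rw [e]
    calc (2:ℝ)^((m:ℝ)*(1-q)) ≤ (2:ℝ)^(2:ℝ) :=
          Real.rpow_le_rpow_of_exponent_le (by norm_num) hmq2
      _ = 4 := by norm_num
  · rw [e]
    calc (2:ℝ) = (2:ℝ)^(1:ℝ) := by norm_num
      _ ≤ _ := Real.rpow_le_rpow_of_exponent_le (by norm_num) hmq
  · rw [e]
    calc (2:ℝ) = (2:ℝ)^(1:ℝ) := by norm_num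
      _ ≤ _ := Real.rpow_le_rpow_of_exponent_le (by norm_num) (by
        have : (m:ℝ)*(1-q) ≤ m * q := by gcongr; linarith
        linarith)

end Pool.Agent.U924.PC
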