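import Mathlib
import Pool.Agent.R972.PC.Defs
import Pool.Agent.U924.Pc.Idx
import Pool.Agent.U924.Pc.Pos
import Pool.Agent.U924.Pc.Cost
import Pool.Agent.U924.Pc.PsiB
import Pool.Agent.U924.Pc.Grid
import Pool.Agent.U924.Pc.Sum
import Pool.Agent.U924.Pc.Lim

set_option autoImplicit false

open MeasureTheory Set Filter Topology
open scoped NNReal ENNReal

namespace Pool.Agent.U924.PC
open Pool.Agent.R972.PC (leb Cstar IsCoupling ratio optRatio)

lemma leb_map_val : leb = (volume : Measure unitInterval).map Subtype.val :=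
  (map_comap_subtype_coe measurableSet_Icc volume).symm

lemma exists_transfer : ∃ e : ℝ → (ℕ → ℝ) × (ℤ → ℝ), Measurable e ∧ leb.map e = nu.prod mu := by
  obtain ⟨f, hf, hmap⟩ := (nu.prod mu).exists_measurable_map_eq
  have hp : Measurable (projIcc (0:ℝ) 1 zero_le_one) := continuous_projIcc.measurable
  have hfp : Measurable (fun u : ℝ => f (projIcc (0:ℝ) 1 zero_le_one u)) := hf.comp hp
  refine ⟨fun u => f (projIcc 0 1 zero_le_one u), hfp, ?_⟩
  rw [leb_map_val, Measure.map_map hfp measurable_subtype_coe, ← hmap]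
  congr 1
  ext1 u
  simp only [Function.comp_apply]
  rw [projIcc_val]

lemma measurable_HH (M : ℕ) (k : ℤ) :
    Measurable (fun p : ℝ × (ℝ × ℝ) => HH M k p.1 p.2.1 p.2.2) := by
  unfold HH
  refine Measurable.ite ?_ (ENNReal.measurable_ofReal.comp (measurable_NN M k)) measurable_const
  refine measurableSet_eq_fun ?_ ?_
  · exact Int.measurable_floor.comp
      (((measurable_fst.comp measurable_snd).sub measurable_fst).div_const _)
  · exact Int.measurable_floor.comp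
      (((measurable_snd.comp measurable_snd).sub measurable_fst).div_const _)

lemma measurable_HH_bb (M : ℕ) (k : ℤ) (m : ℕ) :
    Measurable (fun p : (ℕ → ℝ) × (ℝ × ℝ) => HH M k (bb M m p.1) p.2.1 p.2.2) := by
  have h1 : Measurable (fun p : (ℕ → ℝ) × (ℝ × ℝ) => (bb M m p.1, p.2)) :=
    ((measurable_bb M m).comp measurable_fst).prodMk measurable_snd
  exact Measurable.comp (g := fun p : ℝ × (ℝ × ℝ) => HH M k p.1 p.2.1 p.2.2)
    (measurable_HH M k) h1

lemma measurable_WW (M : ℕ) (q : ℝ) :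
    Measurable (fun p : (ℕ → ℝ) × (ℝ × ℝ) => WW M q p.1 p.2.1 p.2.2) := by
  unfold WW
  exact Measurable.tsum (fun k => (measurable_HH_bb M k _).const_mul _)

lemma E_WW {M : ℕ} (hM : 2 ≤ M) {q : ℝ} (hq0 : 0 < q) (hq1 : q < 1)
    (h1 : (M:ℝ)^(1-q) ≤ 4) (h2 : 2 ≤ (M:ℝ)^(1-q)) (h3 : 2 ≤ (M:ℝ)^q) (x y : ℝ) :
    ∫⁻ v, WW M q v x y ∂nu ≤ ENNReal.ofReal (144 * |x-y|^q) := by
  have hM1 : 1 ≤ M := by omega
  have hm : ∀ (k : ℤ) (m : ℕ), Measurable (fun v : ℕ → ℝ => HH M k (bb M m v) x y) := by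
    intro k m
    have h1 : Measurable (fun v : ℕ → ℝ => (v, (x, y))) := measurable_id.prodMk measurable_const
    exact Measurable.comp (g := fun p : (ℕ → ℝ) × (ℝ × ℝ) => HH M k (bb M m p.1) p.2.1 p.2.2)
      (measurable_HH_bb M k m) h1
  unfold WW
  rw [lintegral_tsum (fun k => ((hm k _).const_mul _).aemeasurable)]
  refine le_trans (ENNReal.tsum_le_tsum (fun k => ?_))
    (sum_levels hM hq0 hq1 h1 h2 h3 |x-y| (abs_nonneg _))
  rw [lintegral_const_mul _ (hm k _)]
  refine mul_le_mul_right ?_ _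
  exact E_HH hM1 k _ (Int.self_le_toNat _) x y

/-- the coupling over the product space has the right laws -/
lemma law_prod {M : ℕ} (hM : 2 ≤ M) (P : Measure ℝ) [IsProbabilityMeasure P] :
    (nu.prod mu).map (XX M P) = P := by
  have hM1 : 1 ≤ M := by omega
  have hXm := measurable_XX hM1 P
  have : IsProbabilityMeasure ((nu.prod mu).map (XX M P)) :=
    Measure.isProbabilityMeasure_map hXm.aemeasurable
  refine ext_of_forall_lintegral_eq_of_IsFiniteMeasure (fun f => ?_)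
  have hfm : Measurable (fun x : ℝ => ((f x : ℝ≥0) : ℝ≥0∞)) :=
    measurable_coe_nnreal_ennreal.comp f.continuous.measurable
  have hfx : Measurable (fun p => ((f (XX M P p) : ℝ≥0) : ℝ≥0∞)) := hfm.comp hXm
  rw [lintegral_map hfm hXm, lintegral_prod _ hfx.aemeasurable]
  have : ∀ᵐ v ∂nu, ∫⁻ ω, ((f (XX M P (v, ω)) : ℝ≥0) : ℝ≥0∞) ∂mu = ∫⁻ x, f x ∂P := by
    filter_upwards [ae_good hM] with v hv
    exact law_XX hM P hv f
  rw [lintegral_congr_ae this]
  simp

attribute [local irreducible] WW XX in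
lemma cost_prod {M : ℕ} (hM : 2 ≤ M) {q : ℝ} (hq0 : 0 < q) (hq1 : q < 1)
    (h1 : (M:ℝ)^(1-q) ≤ 4) (h2 : 2 ≤ (M:ℝ)^(1-q)) (h3 : 2 ≤ (M:ℝ)^q)
    {P Q : Measure ℝ} [IsProbabilityMeasure P] [IsProbabilityMeasure Q]
    {γ : Measure (ℝ × ℝ)} [IsFiniteMeasure γ]
    (hγ1 : γ.map Prod.fst = P) (hγ2 : γ.map Prod.snd = Q) :
    ∫⁻ p, ENNReal.ofReal (|XX M P p - XX M Q p|^q) ∂(nu.prod mu)
      ≤ 144 * ∫⁻ p, ENNReal.ofReal (|p.1 - p.2|^q) ∂γ := by
  have hM1 : 1 ≤ M := by omega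
  have hm : Measurable (fun p => ENNReal.ofReal (|XX M P p - XX M Q p|^q)) :=
    ENNReal.measurable_ofReal.comp
      (((measurable_XX hM1 P).sub (measurable_XX hM1 Q)).abs.pow_const q)
  have hW : AEMeasurable (Function.uncurry (fun (v : ℕ → ℝ) (p : ℝ × ℝ) => WW M q v p.1 p.2))
      (nu.prod γ) := (measurable_WW M q).aemeasurable
  rw [lintegral_prod _ hm.aemeasurable]
  calc _ ≤ ∫⁻ v, ∫⁻ p, WW M q v p.1 p.2 ∂γ ∂nu := by
        refine lintegral_mono_ae ?_
        filter_upwards [ae_good hM] with v hv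
        exact cost_XX hM hq1.le hq0 hγ1 hγ2 hv
    _ = ∫⁻ p, ∫⁻ v, WW M q v p.1 p.2 ∂nu ∂γ :=
        lintegral_lintegral_swap hW
    _ ≤ ∫⁻ p, ENNReal.ofReal (144 * |p.1-p.2|^q) ∂γ :=
        lintegral_mono (fun p => E_WW hM hq0 hq1 h1 h2 h3 p.1 p.2)
    _ = 144 * ∫⁻ p, ENNReal.ofReal (|p.1 - p.2|^q) ∂γ := by
        rw [← lintegral_const_mul]
        · refine lintegral_congr (fun p => ?_)
          rw [ENNReal.ofReal_mul (by norm_num)]; simp
        · exact ENNReal.measurable_ofReal.comp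
            ((measurable_fst.sub measurable_snd).abs.pow_const q)

theorem optRatio_le {q : ℝ} (hq : 1/2 ≤ q) (hq1 : q < 1) : optRatio q ≤ 144 := by
  obtain ⟨M, hM, h1, h2, h3⟩ := exists_base hq hq1
  have hq0 : 0 < q := by linarith
  have hM1 : 1 ≤ M := by omega
  obtain ⟨e, he, hmap⟩ := exists_transfer
  set X : ProbabilityMeasure ℝ → ℝ → ℝ := fun P u => XX M (P : Measure ℝ) (e u) with hX
  have hXm : ∀ P : ProbabilityMeasure ℝ, Measurable (X P) := fun P =>
    (measurable_XX hM1 (P : Measure ℝ)).comp he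
  have hcoup : IsCoupling X := by
    refine ⟨fun P => (hXm P).aemeasurable, fun P => ?_⟩
    have := law_prod hM (P : Measure ℝ)
    rw [← hmap, Measure.map_map (measurable_XX hM1 _) he] at this
    exact this
  refine iInf₂_le_of_le X hcoup ?_
  refine iInf₂_le_of_le (144 : ℝ≥0) ⟨by norm_num, fun P Q => ?_⟩ (by norm_num)
  have hcast : (((144 : ℝ≥0)) : ℝ≥0∞) = 144 := by norm_num
  rw [hcast]
  unfold Cstar
  rw [ENNReal.mul_iInf_of_ne (by norm_num) (by norm_num)]
  refine le_iInf (fun π => ?_)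
  rw [ENNReal.mul_iInf_of_ne (by norm_num) (by norm_num)]
  refine le_iInf (fun hπ => ?_)
  obtain ⟨hπ1, hπ2⟩ := hπ
  have : IsProbabilityMeasure π := by
    constructor
    have : (π.map Prod.fst) univ = 1 := by rw [hπ1]; exact measure_univ
    rwa [Measure.map_apply measurable_fst MeasurableSet.univ, preimage_univ] at this
  have hc := cost_prod hM hq0 hq1 h1 h2 h3 (P := (P : Measure ℝ)) (Q := (Q : Measure ℝ)) hπ1 hπ2
  refine le_trans (le_of_eq ?_) hc
  have hm : Measurable (fun p => ENNReal.ofReal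
      (|XX M (P : Measure ℝ) p - XX M (Q : Measure ℝ) p|^q)) :=
    ENNReal.measurable_ofReal.comp
      (((measurable_XX hM1 _).sub (measurable_XX hM1 _)).abs.pow_const q)
  rw [← hmap, lintegral_map hm he]

end Pool.Agent.U924.PC
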